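import Mathlib

/-!
The van Kampen parity obstruction: in any continuous picture of `K₅` or `K₃,₃` in the plane two
independent edges meet.
-/

open Complex

namespace Pool.Agent.MP_31805c_co.H93

theorem exists_log {X : Type*} [TopologicalSpace X] [SimplyConnectedSpace X]
    [LocallyPathConnectedSpace X] (g : X → ℂ) (hg : Continuous g) (h0 : ∀ x, g x ≠ 0) :
    ∃ f : X → ℂ, Continuous f ∧ ∀ x, exp (f x) = g x := by
  obtain ⟨x0⟩ : Nonempty X := inferInstance
  obtain ⟨F, ⟨-, hF⟩, -⟩ := isCoveringMap_exp.existsUnique_continuousMap_lifts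
    (⟨fun x => (⟨g x, h0 x⟩ : {z : ℂ // z ≠ 0}), hg.subtype_mk _⟩ : C(X, {z : ℂ // z ≠ 0})) x0
    (log (g x0)) (Subtype.ext (exp_log (h0 x0)))
  exact ⟨F, F.continuous, fun x => congrArg Subtype.val (congrFun hF x)⟩

theorem log_uniq {f f' : ℝ → ℂ} (hf : Continuous f) (hf' : Continuous f') (k : ℂ)
    (h : ∀ t, exp (f t) = k * exp (f' t)) : f 1 - f 0 = f' 1 - f' 0 := by
  have := isCoveringMap_exp.const_of_comp (g := fun t => f t - f' t) (hf.sub hf') (fun a b => by
    apply Subtype.ext
    simp only [exp_sub, h, mul_div_cancel_right₀ _ (exp_ne_zero _)]) 1 0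
  linear_combination this

theorem vanKampen {ι : Type} (p : ι → ℂ) (hp : Function.Injective p) (E : ι → ι → Prop)
    (γ : ι → ι → ℝ → ℂ) (hc : ∀ a b, E a b → Continuous (γ a b))
    (h0 : ∀ a b, E a b → γ a b 0 = p a) (h1 : ∀ a b, E a b → γ a b 1 = p b)
    (hv : ∀ v c d, E c d → v ≠ c → v ≠ d → ∀ t, p v ≠ γ c d t)
    (hd : ∀ a b c d, E a b → E c d → a ≠ c → a ≠ d → b ≠ c → b ≠ d → ∀ s t, γ a b s ≠ γ c d t) :
    ∃ (n : ι → ι → ι → ℤ) (m : ι → ι → ℤ), (∀ v w, v ≠ w → m v w + m w v = -1) ∧
      ∀ a b c d, E a b → E c d → a ≠ c → a ≠ d → b ≠ c → b ≠ d →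
        n c a b + n b c d - n a c d - n d a b + m b c + m c a + m d b + m a d + 2 = 0 := by
  have hπ : (2 * Real.pi * I : ℂ) ≠ 0 := two_pi_I_ne_zero
  set L : ι → ι → ℂ := fun v w => log (p v - p w) with hL
  have eL : ∀ v w, v ≠ w → exp (L v w) = p v - p w := fun v w h =>
    exp_log (sub_ne_zero.2 (hp.ne h))
  have hm : ∀ v w, ∃ m : ℤ, v ≠ w → L w v - L v w = (m : ℂ) * (2 * Real.pi * I) + Real.pi * I := by
    intro v w
    by_cases h : v = w
    · exact ⟨0, fun h' => absurd h h'⟩
    have : exp (L w v) = exp (L v w + Real.pi * I) := by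
      rw [exp_add, exp_pi_mul_I, eL _ _ h, eL _ _ (Ne.symm h)]; ring
    obtain ⟨m, hm⟩ := exp_eq_exp_iff_exists_int.1 this
    exact ⟨m, fun _ => by rw [hm]; ring⟩
  choose m hm using hm
  have hn : ∀ v c d, ∃ n : ℤ, E c d → v ≠ c → v ≠ d → ∀ (f : ℝ → ℂ) (k : ℂ), Continuous f →
      (∀ t, exp (f t) = k * (p v - γ c d t)) →
      f 1 - f 0 = L v d - L v c + (n : ℂ) * (2 * Real.pi * I) := by
    intro v c d
    by_cases h : E c d ∧ v ≠ c ∧ v ≠ d
    swap
    · exact ⟨0, fun a b c => absurd ⟨a, b, c⟩ h⟩
    obtain ⟨f0, hf0, he⟩ := exists_log (fun t => p v - γ c d t) (continuous_const.sub (hc _ _ h.1))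
      (fun t => sub_ne_zero.2 (hv v c d h.1 h.2.1 h.2.2 t))
    have : exp (f0 1 - f0 0) = exp (L v d - L v c) := by
      rw [exp_sub, exp_sub, he, he, eL _ _ h.2.1, eL _ _ h.2.2, h0 _ _ h.1, h1 _ _ h.1]
    obtain ⟨n, hn⟩ := exp_eq_exp_iff_exists_int.1 this
    refine ⟨n, fun _ _ _ f k hf hk => ?_⟩
    rw [← hn]
    exact log_uniq hf hf0 k fun t => by rw [hk, he]
  choose n hn using hn
  refine ⟨n, m, fun v w h => ?_, fun a b c d hab hcd ac ad bc bd => ?_⟩
  · have e1 := hm v w h
    have e2 := hm w v (Ne.symm h)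
    have : ((m v w + m w v + 1 : ℤ) : ℂ) * (2 * Real.pi * I) = 0 := by
      push_cast; linear_combination -e1 - e2
    have := (mul_eq_zero.1 this).resolve_right hπ
    have : m v w + m w v + 1 = 0 := by exact_mod_cast this
    omega
  obtain ⟨F, hF, he⟩ := exists_log (fun q : ℝ × ℝ => γ a b q.1 - γ c d q.2)
    (((hc _ _ hab).comp continuous_fst).sub ((hc _ _ hcd).comp continuous_snd))
    (fun q => sub_ne_zero.2 (hd a b c d hab hcd ac ad bc bd q.1 q.2))
  have w1 := hn a c d hcd ac ad (fun t => F (0, t)) 1 (by fun_prop) fun t => by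
    simp [he, h0 _ _ hab]
  have w2 := hn b c d hcd bc bd (fun t => F (1, t)) 1 (by fun_prop) fun t => by
    simp [he, h1 _ _ hab]
  have w3 := hn c a b hab ac.symm bc.symm (fun t => F (t, 0)) (-1) (by fun_prop) fun t => by
    simp [he, h0 _ _ hcd]
  have w4 := hn d a b hab ad.symm bd.symm (fun t => F (t, 1)) (-1) (by fun_prop) fun t => by
    simp [he, h1 _ _ hcd]
  have e1 := hm b c bc
  have e2 := hm c a ac.symm
  have e3 := hm d b bd.symm
  have e4 := hm a d ad
  have : ((n c a b + n b c d - n a c d - n d a b + m b c + m c a + m d b + m a d + 2 : ℤ) : ℂ) *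
      (2 * Real.pi * I) = 0 := by
    push_cast
    linear_combination -w3 - w2 + w1 + w4 - e1 - e2 - e3 - e4
  exact_mod_cast (mul_eq_zero.1 this).resolve_right hπ

theorem parity5 (n : Fin 5 → Fin 5 → Fin 5 → ℤ) (m : Fin 5 → Fin 5 → ℤ)
    (hm : ∀ v w, v ≠ w → m v w + m w v = -1)
    (h : ∀ a b c d, a < b → c < d → a ≠ c → a ≠ d → b ≠ c → b ≠ d →
      n c a b + n b c d - n a c d - n d a b + m b c + m c a + m d b + m a d + 2 = 0) : False := by
  have e0 := h 0 1 2 3 (by decide) (by decide) (by decide) (by decide) (by decide) (by decide)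
  have e1 := h 0 1 2 4 (by decide) (by decide) (by decide) (by decide) (by decide) (by decide)
  have e2 := h 0 1 3 4 (by decide) (by decide) (by decide) (by decide) (by decide) (by decide)
  have e3 := h 0 2 1 3 (by decide) (by decide) (by decide) (by decide) (by decide) (by decide)
  have e4 := h 0 2 1 4 (by decide) (by decide) (by decide) (by decide) (by decide) (by decide)
  have e5 := h 0 2 3 4 (by decide) (by decide) (by decide) (by decide) (by decide) (by decide)
  have e6 := h 0 3 1 2 (by decide) (by decide) (by decide) (by decide) (by decide) (by decide)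
  have e7 := h 0 3 1 4 (by decide) (by decide) (by decide) (by decide) (by decide) (by decide)
  have e8 := h 0 3 2 4 (by decide) (by decide) (by decide) (by decide) (by decide) (by decide)
  have e9 := h 0 4 1 2 (by decide) (by decide) (by decide) (by decide) (by decide) (by decide)
  have e10 := h 0 4 1 3 (by decide) (by decide) (by decide) (by decide) (by decide) (by decide)
  have e11 := h 0 4 2 3 (by decide) (by decide) (by decide) (by decide) (by decide) (by decide)
  have e12 := h 1 2 3 4 (by decide) (by decide) (by decide) (by decide) (by decide) (by decide)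
  have e13 := h 1 3 2 4 (by decide) (by decide) (by decide) (by decide) (by decide) (by decide)
  have e14 := h 1 4 2 3 (by decide) (by decide) (by decide) (by decide) (by decide) (by decide)
  have m01 := hm 0 1 (by decide)
  have m02 := hm 0 2 (by decide)
  have m03 := hm 0 3 (by decide)
  have m04 := hm 0 4 (by decide)
  have m12 := hm 1 2 (by decide)
  have m13 := hm 1 3 (by decide)
  have m14 := hm 1 4 (by decide)
  have m23 := hm 2 3 (by decide)
  have m24 := hm 2 4 (by decide)
  have m34 := hm 3 4 (by decide)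
  omega

theorem parity33 (n : Fin 6 → Fin 6 → Fin 6 → ℤ) (m : Fin 6 → Fin 6 → ℤ)
    (hm : ∀ v w, v ≠ w → m v w + m w v = -1)
    (h : ∀ a b c d, (a < 3 ∧ 3 ≤ b) → (c < 3 ∧ 3 ≤ d) → a ≠ c → a ≠ d → b ≠ c → b ≠ d →
      n c a b + n b c d - n a c d - n d a b + m b c + m c a + m d b + m a d + 2 = 0) : False := by
  have e0 := h 0 3 1 4 (by decide) (by decide) (by decide) (by decide) (by decide) (by decide)
  have e1 := h 0 3 1 5 (by decide) (by decide) (by decide) (by decide) (by decide) (by decide)
  have e2 := h 0 3 2 4 (by decide) (by decide) (by decide) (by decide) (by decide) (by decide)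
  have e3 := h 0 3 2 5 (by decide) (by decide) (by decide) (by decide) (by decide) (by decide)
  have e4 := h 0 4 1 3 (by decide) (by decide) (by decide) (by decide) (by decide) (by decide)
  have e5 := h 0 4 1 5 (by decide) (by decide) (by decide) (by decide) (by decide) (by decide)
  have e6 := h 0 4 2 3 (by decide) (by decide) (by decide) (by decide) (by decide) (by decide)
  have e7 := h 0 4 2 5 (by decide) (by decide) (by decide) (by decide) (by decide) (by decide)
  have e8 := h 0 5 1 3 (by decide) (by decide) (by decide) (by decide) (by decide) (by decide)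
  have e9 := h 0 5 1 4 (by decide) (by decide) (by decide) (by decide) (by decide) (by decide)
  have e10 := h 0 5 2 3 (by decide) (by decide) (by decide) (by decide) (by decide) (by decide)
  have e11 := h 0 5 2 4 (by decide) (by decide) (by decide) (by decide) (by decide) (by decide)
  have e12 := h 1 3 2 4 (by decide) (by decide) (by decide) (by decide) (by decide) (by decide)
  have e13 := h 1 3 2 5 (by decide) (by decide) (by decide) (by decide) (by decide) (by decide)
  have e14 := h 1 4 2 3 (by decide) (by decide) (by decide) (by decide) (by decide) (by decide)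
  have e15 := h 1 4 2 5 (by decide) (by decide) (by decide) (by decide) (by decide) (by decide)
  have e16 := h 1 5 2 3 (by decide) (by decide) (by decide) (by decide) (by decide) (by decide)
  have e17 := h 1 5 2 4 (by decide) (by decide) (by decide) (by decide) (by decide) (by decide)
  have m01 := hm 0 1 (by decide)
  have m02 := hm 0 2 (by decide)
  have m03 := hm 0 3 (by decide)
  have m04 := hm 0 4 (by decide)
  have m05 := hm 0 5 (by decide)
  have m12 := hm 1 2 (by decide)
  have m13 := hm 1 3 (by decide)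
  have m14 := hm 1 4 (by decide)
  have m15 := hm 1 5 (by decide)
  have m23 := hm 2 3 (by decide)
  have m24 := hm 2 4 (by decide)
  have m25 := hm 2 5 (by decide)
  have m34 := hm 3 4 (by decide)
  have m35 := hm 3 5 (by decide)
  have m45 := hm 4 5 (by decide)
  omega

end Pool.Agent.MP_31805c_co.H93
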