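import Pool.Agent.MP_31805c_co.H93.Defs
import Pool.Agent.MP_31805c_co.H93.Wind

/-! A planar graph has no `K₅` minor and no `K₃,₃` minor. -/

namespace Pool.Agent.MP_31805c_co.H93

open Set

variable {V : Type} {G : SimpleGraph V}

/-- `u` and `v` are joined by a walk inside `U`. -/
def Conn (G : SimpleGraph V) (U : Set V) : V → V → Prop :=
  Relation.ReflTransGen fun a b => G.Adj a b ∧ a ∈ U ∧ b ∈ U

theorem Conn.refl (U : Set V) (v : V) : Conn G U v v := Relation.ReflTransGen.refl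

theorem Conn.trans {U : Set V} {u v w : V} (h : Conn G U u v) (h' : Conn G U v w) :
    Conn G U u w := Relation.ReflTransGen.trans h h'

theorem Conn.adj {U : Set V} {u v : V} (h : G.Adj u v) (hu : u ∈ U) (hv : v ∈ U) :
    Conn G U u v := Relation.ReflTransGen.single ⟨h, hu, hv⟩

theorem Conn.symm {U : Set V} {u v : V} (h : Conn G U u v) : Conn G U v u := by
  induction h with
  | refl => exact Conn.refl _ _
  | tail _ h ih => exact (Conn.adj h.1.symm h.2.2 h.2.1).trans ih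

theorem Conn.mono {U U' : Set V} (hU : U ⊆ U') {u v : V} (h : Conn G U u v) : Conn G U' u v := by
  induction h with
  | refl => exact Conn.refl _ _
  | tail _ h ih => exact ih.trans (Conn.adj h.1 (hU h.2.1) (hU h.2.2))

theorem Conn.mem {U : Set V} {u v : V} (h : Conn G U u v) (hu : u ∈ U) : v ∈ U := by
  induction h with
  | refl => exact hu
  | tail _ h _ => exact h.2.2

/-- a walk inside `U` stays inside the component of its start -/
theorem Conn.comp {U : Set V} {u v : V} (h : Conn G U u v) :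
    Conn G {w | Conn G U u w} u v := by
  induction h with
  | refl => exact Conn.refl _ _
  | tail h1 h ih => exact ih.trans (Conn.adj h.1 h1 (Relation.ReflTransGen.tail h1 h))

theorem minor (hG : IsPlanar G) {ι : Type} (A : ι → Set V) (r : ι → V) (hr : ∀ i, r i ∈ A i)
    (hA : ∀ i j, i ≠ j → Disjoint (A i) (A j)) (E : ι → ι → Prop)
    (hE : ∀ i j, E i j → Conn G (A i ∪ A j) (r i) (r j)) :
    ∃ (n : ι → ι → ι → ℤ) (m : ι → ι → ℤ), (∀ v w, v ≠ w → m v w + m w v = -1) ∧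
      ∀ a b c d, E a b → E c d → a ≠ c → a ≠ d → b ≠ c → b ≠ d →
        n c a b + n b c d - n a c d - n d a b + m b c + m c a + m d b + m a d + 2 = 0 := by
  obtain ⟨pos, γ, hinj, he, hv, hx⟩ := hG
  let τ : Set V → Set ℂ := fun U =>
    pos '' U ∪ {p | ∃ u ∈ U, ∃ v ∈ U, G.Adj u v ∧ p ∈ γ u v '' Icc 0 1}
  have hτ : ∀ U U', Disjoint U U' → Disjoint (τ U) (τ U') := by
    intro U U' h
    rw [Set.disjoint_left] at h ⊢
    rintro p (⟨u, hu, rfl⟩ | ⟨u, hu, v, hv', a, hp⟩) (⟨u', hu', e⟩ | ⟨u', hu', v', hv'', a', hp'⟩)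
    · exact h hu (hinj e ▸ hu')
    · rcases hv _ _ _ a' hp' with rfl | rfl
      exacts [h hu hu', h hu hv'']
    · rcases hv _ _ _ a (e ▸ hp) with rfl | rfl
      exacts [h hu hu', h hv' hu']
    · obtain ⟨w, h1, h2, -⟩ := hx u v u' v' a a' (by
        intro e
        rcases Sym2.eq_iff.1 e with ⟨rfl, -⟩ | ⟨rfl, -⟩
        exacts [h hu hu', h hu hv'']) p hp hp'
      rcases h1 with rfl | rfl <;> rcases h2 with rfl | rfl
      exacts [h hu hu', h hu hv'', h hv' hu', h hv' hv'']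
  have hj : ∀ U u v, Conn G U u v → u ∈ U → JoinedIn (τ U) (pos u) (pos v) := by
    intro U u v h hu
    induction h with
    | refl => exact JoinedIn.refl (Or.inl ⟨u, hu, rfl⟩)
    | @tail b c _ h ih =>
      refine ih.trans ?_
      obtain ⟨h1, -, h2, h3, -⟩ := he b c h.1
      exact JoinedIn.ofLine h1 h2 h3 fun p hp => Or.inr ⟨b, h.2.1, c, h.2.2, h.1, hp⟩
  have hp : ∀ i j, ∃ g : ℝ → ℂ, E i j → Continuous g ∧ g 0 = pos (r i) ∧ g 1 = pos (r j) ∧
      ∀ t, g t ∈ τ (A i ∪ A j) := by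
    intro i j
    by_cases h : E i j
    · obtain ⟨q, hq⟩ := hj _ _ _ (hE i j h) (Or.inl (hr i))
      refine ⟨q.extend, fun _ => ⟨q.continuous_extend, q.extend_zero, q.extend_one, fun t => ?_⟩⟩
      obtain ⟨s, hs⟩ : q.extend t ∈ range q := q.extend_range ▸ mem_range_self t
      exact hs ▸ hq s
    · exact ⟨0, fun h' => absurd h' h⟩
  choose g hg using hp
  refine vanKampen (fun i => pos (r i)) (fun i j h => ?_) E g (fun a b h => (hg a b h).1)
    (fun a b h => (hg a b h).2.1) (fun a b h => (hg a b h).2.2.1) ?_ ?_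
  · by_contra hn
    exact Set.disjoint_left.1 (hA i j hn) (hr i) (hinj h ▸ hr j)
  · intro v c d h h1 h2 t e
    exact Set.disjoint_left.1 (hτ _ _ (disjoint_union_right.2 ⟨hA _ _ h1, hA _ _ h2⟩))
      (Or.inl ⟨r v, hr v, rfl⟩) (e ▸ (hg c d h).2.2.2 t)
  · intro a b c d h h' h1 h2 h3 h4 s t e
    exact Set.disjoint_left.1 (hτ _ _ (disjoint_union_left.2
      ⟨disjoint_union_right.2 ⟨hA _ _ h1, hA _ _ h2⟩, disjoint_union_right.2 ⟨hA _ _ h3, hA _ _ h4⟩⟩))
      ((hg a b h).2.2.2 s) (e ▸ (hg c d h').2.2.2 t)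

/-- no `K₃,₃` minor with five singleton branch sets -/
theorem no33 (hG : IsPlanar G) {p p' v1 v2 v3 k : V} {K : Set V} (hk : k ∈ K)
    (n0 : p ≠ p') (n1 : v1 ≠ v2) (n2 : v1 ≠ v3) (n3 : v2 ≠ v3)
    (a1 : G.Adj p v1) (a2 : G.Adj p v2) (a3 : G.Adj p v3)
    (b1 : G.Adj p' v1) (b2 : G.Adj p' v2) (b3 : G.Adj p' v3)
    (m0 : p ∉ K) (m0' : p' ∉ K) (m1 : v1 ∉ K) (m2 : v2 ∉ K) (m3 : v3 ∉ K)
    (c1 : Conn G (K ∪ {v1}) k v1) (c2 : Conn G (K ∪ {v2}) k v2) (c3 : Conn G (K ∪ {v3}) k v3) :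
    False := by
  obtain ⟨n, m, hm, h⟩ := minor hG ![{p}, {p'}, K, {v1}, {v2}, {v3}] ![p, p', k, v1, v2, v3]
    (by intro i; fin_cases i <;> simp [hk])
    (by
      have := a1.ne; have := a2.ne; have := a3.ne; have := b1.ne; have := b2.ne; have := b3.ne
      have := a1.ne'; have := a2.ne'; have := a3.ne'; have := b1.ne'; have := b2.ne'; have := b3.ne'
      have := n0.symm; have := n1.symm; have := n2.symm; have := n3.symm
      intro i j hij
      fin_cases i <;> fin_cases j <;> first | exact absurd rfl hij | simp [*])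
    (fun a b => a < 3 ∧ 3 ≤ b)
    (by
      intro i j hij
      fin_cases i <;> fin_cases j <;> first
        | exact absurd hij (by decide)
        | assumption
        | exact Conn.adj (by assumption) (by simp) (by simp))
  exact parity33 n m hm h

theorem k33 (hG : IsPlanar G) {p p' p'' v1 v2 v3 : V}
    (n0 : p ≠ p') (n0' : p ≠ p'') (n0'' : p' ≠ p'') (n1 : v1 ≠ v2) (n2 : v1 ≠ v3) (n3 : v2 ≠ v3)
    (a1 : G.Adj p v1) (a2 : G.Adj p v2) (a3 : G.Adj p v3)
    (b1 : G.Adj p' v1) (b2 : G.Adj p' v2) (b3 : G.Adj p' v3)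
    (c1 : G.Adj p'' v1) (c2 : G.Adj p'' v2) (c3 : G.Adj p'' v3) : False :=
  no33 hG (K := {p''}) rfl n0 n1 n2 n3 a1 a2 a3 b1 b2 b3 n0' n0'' c1.ne' c2.ne' c3.ne'
    (Conn.adj c1 (by simp) (by simp)) (Conn.adj c2 (by simp) (by simp))
    (Conn.adj c3 (by simp) (by simp))

theorem cross {U : Set V} {v v' v'' : V} (hn : ¬ G.Adj v v') (hv : v ∉ U) (hv' : v' ∉ U)
    (hne : v ≠ v') (h : Conn G (U ∪ {v, v'}) v v'') :
    v'' = v ∨ (∃ w ∈ U, G.Adj v w ∧ Conn G U w v'') ∨
      ∃ w ∈ U, ∃ w', G.Adj v w ∧ Conn G U w w' ∧ G.Adj w' v' := by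
  induction h with
  | refl => exact Or.inl rfl
  | @tail b c _ h ih =>
    obtain ⟨ha, -, hc⟩ := h
    rcases ih with rfl | ⟨w, hw, h1, h2⟩ | h
    · rcases hc with hc | rfl | rfl
      · exact Or.inr (Or.inl ⟨c, hc, ha, Conn.refl _ _⟩)
      · exact Or.inl rfl
      · exact absurd ha hn
    · rcases hc with hc | rfl | rfl
      · exact Or.inr (Or.inl ⟨w, hw, h1, h2.trans (Conn.adj ha (h2.mem hw) hc)⟩)
      · exact Or.inl rfl
      · exact Or.inr (Or.inr ⟨w, hw, b, h1, h2, ha⟩)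
    · exact Or.inr (Or.inr h)

/-- If `p`, `p'` have common neighbours `u`, `v1`, `v2`, `v3` and `u` has no further neighbour in
`S`, then some `vi` together with `p`, `p'` separates the other two. -/
theorem separate (hG : IsPlanar G) {S : Set V} {p p' u v1 v2 v3 : V}
    (n0 : p ≠ p') (n1 : v1 ≠ v2) (n2 : v1 ≠ v3) (n3 : v2 ≠ v3)
    (u1 : u ≠ v1) (u2 : u ≠ v2) (u3 : u ≠ v3)
    (a0 : G.Adj p u) (a1 : G.Adj p v1) (a2 : G.Adj p v2) (a3 : G.Adj p v3)
    (b0 : G.Adj p' u) (b1 : G.Adj p' v1) (b2 : G.Adj p' v2) (b3 : G.Adj p' v3)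
    (hu : ∀ w ∈ S, G.Adj u w → w = p ∨ w = p')
    (d1 : ¬ G.Adj v2 v3) (d2 : ¬ G.Adj v3 v1) (d3 : ¬ G.Adj v1 v2)
    (c1 : Conn G (S \ {p, p', v1}) v2 v3) (c2 : Conn G (S \ {p, p', v2}) v3 v1)
    (c3 : Conn G (S \ {p, p', v3}) v1 v2) : False := by
  set U : Set V := S \ {p, p', v1, v2, v3} with hU
  have key : ∀ v v' v'' : V, v ≠ v' → ¬ G.Adj v v' → v ∉ U → v' ∉ U →
      S \ {p, p', v''} ⊆ U ∪ {v, v'} → Conn G (S \ {p, p', v''}) v v' →
      ∃ w ∈ U, ∃ w', G.Adj v w ∧ Conn G U w w' ∧ G.Adj w' v' := by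
    intro v v' v'' h1 h2 h3 h4 h5 h6
    rcases cross h2 h3 h4 h1 (h6.mono h5) with h | ⟨w, hw, -, h⟩ | h
    · exact absurd h.symm h1
    · exact absurd (h.mem hw) h4
    · exact h
  obtain ⟨w1, m1, w1', x1, y1, z1⟩ := key v2 v3 v1 n3 d1 (by simp [hU]) (by simp [hU])
    (by intro t; simp only [hU, mem_sdiff, mem_insert_iff, mem_singleton_iff, mem_union]; tauto) c1
  obtain ⟨w2, m2, w2', x2, y2, z2⟩ := key v3 v1 v2 n2.symm d2 (by simp [hU]) (by simp [hU])
    (by intro t; simp only [hU, mem_sdiff, mem_insert_iff, mem_singleton_iff, mem_union]; tauto) c2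
  obtain ⟨w3, m3, w3', x3, y3, z3⟩ := key v1 v2 v3 n1 d3 (by simp [hU]) (by simp [hU])
    (by intro t; simp only [hU, mem_sdiff, mem_insert_iff, mem_singleton_iff, mem_union]; tauto) c3
  let K : V → Set V := fun w => {t | Conn G U w t}
  have hK : ∀ w ∈ U, K w ⊆ U := fun w hw t ht => Conn.mem ht hw
  have out : ∀ w ∈ U, ∀ t, t ∈ ({p, p', v1, v2, v3} : Set V) → t ∉ K w :=
    fun w hw t ht h => (hK w hw h).2 ht
  have reach : ∀ w t v, Conn G U w t → G.Adj t v → Conn G (K w ∪ {v}) w v := fun w t v h h' =>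
    (h.comp.mono subset_union_left).trans (Conn.adj h' (Or.inl h) (Or.inr rfl))
  have all3 : ∀ w ∈ U, ∀ t1 t2 t3, Conn G U w t1 → Conn G U w t2 → Conn G U w t3 →
      G.Adj t1 v1 → G.Adj t2 v2 → G.Adj t3 v3 → False := fun w hw t1 t2 t3 e1 e2 e3 f1 f2 f3 =>
    no33 hG (K := K w) (Conn.refl _ _) n0 n1 n2 n3 a1 a2 a3 b1 b2 b3 (out w hw _ (by simp))
      (out w hw _ (by simp)) (out w hw _ (by simp)) (out w hw _ (by simp)) (out w hw _ (by simp))
      (reach _ _ _ e1 f1) (reach _ _ _ e2 f2) (reach _ _ _ e3 f3)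
  have dj : ∀ w w', ¬ Conn G U w w' → Disjoint (K w) (K w') := fun w w' h =>
    Set.disjoint_left.2 fun t h1 h2 => h (Conn.trans h1 (Conn.symm h2))
  have k12 : ¬ Conn G U w1 w2 := fun h =>
    all3 w1 m1 w2' w1 w1' (h.trans y2) (Conn.refl _ _) y1 z2 x1.symm z1
  have k13 : ¬ Conn G U w1 w3 := fun h =>
    all3 w1 m1 w3 w1 w1' h (Conn.refl _ _) y1 x3.symm x1.symm z1
  have k23 : ¬ Conn G U w2 w3 := fun h =>
    all3 w2 m2 w2' w3' w2 y2 (h.trans y3) (Conn.refl _ _) z2 z3 x2.symm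
  have uK : ∀ w ∈ U, ∀ v, v ≠ p → v ≠ p' → v ∈ S ∨ w ≠ u → u ∈ K w → G.Adj v w → False := by
    intro w hw v e1 e2 e3 h ha
    rcases Relation.ReflTransGen.cases_tail h with h | ⟨t, -, h1, h2, -⟩
    · subst h
      rcases e3 with e3 | e3
      · rcases hu v e3 ha.symm with h | h
        exacts [e1 h, e2 h]
      · exact e3 rfl
    · rcases hu t h2.1 h1.symm with h | h <;> exact h2.2 (by simp [h])
  have s2 : v2 ∈ S := by
    rcases Relation.ReflTransGen.cases_head c1 with h | ⟨t, h, -⟩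
    exacts [absurd h n3, h.2.1.1]
  have s3 : v3 ∈ S := by
    rcases Relation.ReflTransGen.cases_head c2 with h | ⟨t, h, -⟩
    exacts [absurd h.symm n2, h.2.1.1]
  have s1 : v1 ∈ S := by
    rcases Relation.ReflTransGen.cases_head c3 with h | ⟨t, h, -⟩
    exacts [absurd h n1, h.2.1.1]
  have q1 : u ∉ K w1 := fun h => uK w1 m1 v2 a2.ne' b2.ne' (Or.inl s2) h x1
  have q2 : u ∉ K w2 := fun h => uK w2 m2 v3 a3.ne' b3.ne' (Or.inl s3) h x2
  have q3 : u ∉ K w3 := fun h => uK w3 m3 v1 a1.ne' b1.ne' (Or.inl s1) h x3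
  have link : ∀ v w w' v' (B : Set V), G.Adj v w → Conn G U w w' → G.Adj w' v' → v' ∈ B →
      Conn G (insert v (K w) ∪ B) v v' := fun v w w' v' B h1 h2 h3 h4 =>
    (Conn.adj h1 (by simp) (Or.inl (Or.inr (Conn.refl _ _)))).trans
      ((reach _ _ _ h2 h3).mono (by
        rintro t (h | rfl)
        exacts [Or.inl (Or.inr h), Or.inr h4]))
  obtain ⟨n, m, hm, h⟩ := minor hG
    ![{p, u}, {p'}, insert v1 (K w3), insert v2 (K w1), insert v3 (K w2)] ![p, p', v1, v2, v3]
    (by intro i; fin_cases i <;> simp)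
    (by
      have := a1.ne; have := a2.ne; have := a3.ne; have := b1.ne; have := b2.ne; have := b3.ne
      have := a1.ne'; have := a2.ne'; have := a3.ne'; have := b1.ne'; have := b2.ne'; have := b3.ne'
      have := n0.symm; have := n1.symm; have := n2.symm; have := n3.symm
      have := u1.symm; have := u2.symm; have := u3.symm; have := b0.ne; have := b0.ne'
      have := out w1 m1 p (by simp); have := out w1 m1 p' (by simp); have := out w1 m1 v1 (by simp)
      have := out w1 m1 v3 (by simp); have := out w2 m2 p (by simp); have := out w2 m2 p' (by simp)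
      have := out w2 m2 v1 (by simp); have := out w2 m2 v2 (by simp)
      have := out w3 m3 p (by simp); have := out w3 m3 p' (by simp)
      have := out w3 m3 v2 (by simp); have := out w3 m3 v3 (by simp)
      have := dj _ _ k12; have := dj _ _ k13; have := dj _ _ k23
      have := (dj _ _ k12).symm; have := (dj _ _ k13).symm; have := (dj _ _ k23).symm
      intro i j hij
      fin_cases i <;> fin_cases j <;> first | exact absurd rfl hij | simp [*])
    (fun a b => a < b)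
    (by
      intro i j hij
      fin_cases i <;> fin_cases j <;> first
        | exact absurd hij (by decide)
        | exact Conn.adj (by assumption) (by simp) (by simp)
        | exact (Conn.adj a0 (by simp) (by simp)).trans (Conn.adj b0.symm (by simp) (by simp))
        | exact link _ _ _ _ _ x3 y3 z3 (by simp)
        | exact link _ _ _ _ _ x1 y1 z1 (by simp)
        | exact ((link _ _ _ _ (insert v1 (K w3)) x2 y2 z2 (by simp)).symm.mono
            (by rw [union_comm]; exact Subset.rfl)))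
  exact parity5 n m hm h

end Pool.Agent.MP_31805c_co.H93
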