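import Pool.Agent.MP_31805c_co.H93.Ext
import Pool.Agent.MP_31805c_co.H93.Minor

/-! Twins, 4-cycle components and the double counting argument. -/

namespace Pool.Agent.MP_31805c_co.H93

open Finset

variable {V : Type} [DecidableEq V] {G : SimpleGraph V} [DecidableRel G.Adj]
variable {σ : V → Bool} {S : Finset V}

/-- no two adjacent vertices of degree two -/
def NoSq (G : SimpleGraph V) [DecidableRel G.Adj] (S : Finset V) : Prop :=
  ∀ u ∈ S, ∀ v ∈ S, G.Adj u v → #(nb G S u) = 2 → 3 ≤ #(nb G S v)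

theorem Ext.twin (h : Ext G S) (hσ : ∀ u v, G.Adj u v → σ u ≠ σ v) {u : V} (hu : u ∈ S)
    (h2 : #(nb G S u) = 2) : ∃ u' ∈ S, u' ≠ u ∧ nb G S u' = nb G S u := by
  obtain ⟨t, ht, n⟩ := exists_mem_ne (s := S.filter fun t => nb G S t ⊆ nb G S u)
    (by have := h.star hσ hu; omega) u
  obtain ⟨t1, t2⟩ := mem_filter.1 ht
  exact ⟨t, t1, n, eq_of_subset_of_card_le t2 (h2 ▸ h.1 t t1)⟩

theorem nb_eq_pair {u p p' : V} (h2 : #(nb G S u) = 2) (n : p ≠ p') (hp : p ∈ S) (hp' : p' ∈ S)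
    (a : G.Adj u p) (a' : G.Adj u p') : nb G S u = {p, p'} :=
  (eq_of_subset_of_card_le (insert_subset (mem_nb.2 ⟨hp, a⟩) (by simpa using ⟨hp', a'⟩))
    (by rw [h2, card_pair n])).symm

theorem Ext.square (h : Ext G S) (hσ : ∀ u v, G.Adj u v → σ u ≠ σ v) {u v : V} (hu : u ∈ S)
    (hv : v ∈ S) (a : G.Adj u v) (h1 : #(nb G S u) = 2) (h2 : #(nb G S v) = 2) :
    ∃ u' ∈ S, ∃ v' ∈ S, u ≠ u' ∧ v ≠ v' ∧ nb G S u = {v, v'} ∧ nb G S u' = {v, v'} ∧
      nb G S v = {u, u'} ∧ nb G S v' = {u, u'} := by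
  obtain ⟨u', hu', n1, e1⟩ := h.twin hσ hu h1
  obtain ⟨v', hv', n2, e2⟩ := h.twin hσ hv h2
  have a1 : G.Adj u' v := (mem_nb.1 (e1 ▸ mem_nb.2 ⟨hv, a⟩)).2
  have a2 : G.Adj v' u := (mem_nb.1 (e2 ▸ mem_nb.2 ⟨hu, a.symm⟩)).2
  have e3 := nb_eq_pair h1 n2.symm hv hv' a a2.symm
  have e4 := nb_eq_pair h2 n1.symm hu hu' a.symm a1.symm
  exact ⟨u', hu', v', hv', n1.symm, n2.symm, e3, e1.trans e3, e4, e2.trans e4⟩

theorem three {α : Type} {A : Finset α} (h : 3 ≤ #A) :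
    ∃ a ∈ A, ∃ b ∈ A, ∃ c ∈ A, a ≠ b ∧ a ≠ c ∧ b ≠ c := two_lt_card.1 h

omit [DecidableEq V] in
theorem no_three (hG : IsPlanar G) {u v w : V} (n1 : u ≠ v) (n2 : u ≠ w) (n3 : v ≠ w)
    (h : 3 ≤ #(nb G S u)) (h1 : nb G S u ⊆ nb G S v) (h2 : nb G S u ⊆ nb G S w) : False := by
  obtain ⟨a, ha, b, hb, c, hc, m1, m2, m3⟩ := three h
  exact k33 hG n1 n2 n3 m1 m2 m3 (mem_nb.1 ha).2 (mem_nb.1 hb).2 (mem_nb.1 hc).2
    (mem_nb.1 (h1 ha)).2 (mem_nb.1 (h1 hb)).2 (mem_nb.1 (h1 hc)).2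
    (mem_nb.1 (h2 ha)).2 (mem_nb.1 (h2 hb)).2 (mem_nb.1 (h2 hc)).2

theorem Ext.low (h : Ext G S) (hσ : ∀ u v, G.Adj u v → σ u ≠ σ v) (hG : IsPlanar G)
    {R : Finset V} (hR : R ⊆ S) (ne : R.Nonempty) (cl : ∀ r ∈ R, ∀ t ∈ S, G.Adj r t → t ∈ R) :
    ∃ u ∈ R, #(nb G S u) = 2 := by
  obtain ⟨v, hv, hm⟩ := exists_min_image R (fun v => #(nb G S v)) ne
  refine ⟨v, hv, ?_⟩
  by_contra hn
  have h3 : 3 ≤ #(nb G S v) := by have := h.1 v (hR hv); omega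
  obtain ⟨a, ha, b, hb, c, hc, m1, m2, m3⟩ := three (h3.trans (h.star hσ (hR hv)))
  have e : ∀ t ∈ S.filter (fun u => nb G S u ⊆ nb G S v), nb G S t = nb G S v := fun t ht => by
    obtain ⟨t1, t2⟩ := mem_filter.1 ht
    obtain ⟨s, hs, a⟩ := h.nbr t1
    have := mem_nb.1 (t2 (mem_nb.2 ⟨hs, a⟩))
    exact eq_of_subset_of_card_le t2 (hm t (cl s (cl v hv s hs this.2) t t1 a.symm))
  exact no_three hG m1 m2 m3 (e a ha ▸ h3) (by rw [e a ha, e b hb]) (by rw [e a ha, e c hc])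

theorem dbl {α : Type} (A B : Finset α) (r : α → α → Prop) [DecidableRel r] :
    ∑ a ∈ A, #(B.filter (r a)) = ∑ b ∈ B, #(A.filter (r · b)) := by
  simp only [card_filter]
  exact sum_comm

/-- at most two vertices of degree at least three see all neighbours of a vertex of degree two -/
def Codeg (G : SimpleGraph V) [DecidableRel G.Adj] (S : Finset V) : Prop :=
  ∀ u ∈ S, #(nb G S u) = 2 → #(S.filter fun v => 3 ≤ #(nb G S v) ∧ nb G S u ⊆ nb G S v) ≤ 2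

theorem Ext.dominated (h : Ext G S) (hσ : ∀ u v, G.Adj u v → σ u ≠ σ v) (hG : IsPlanar G)
    (hq : NoSq G S) (ne : S.Nonempty) (hc : Codeg G S) :
    ∃ u ∈ S, ∃ v ∈ S, u ≠ v ∧ 3 ≤ #(nb G S u) ∧ nb G S u ⊆ nb G S v ∧
      ∃ z ∈ nb G S u, #(nb G S z) = 2 := by
  by_contra hn
  push Not at hn
  set Hi := S.filter fun v => 3 ≤ #(nb G S v) with hHi
  set L := S.filter fun v => ¬ 3 ≤ #(nb G S v) with hL
  have mL : ∀ u ∈ L, u ∈ S ∧ #(nb G S u) = 2 := fun u hu => by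
    obtain ⟨u1, u2⟩ := mem_filter.1 hu
    have := h.1 u u1
    exact ⟨u1, by omega⟩
  have sp : ∀ P : V → Prop, ∀ [DecidablePred P], #(S.filter P) = #(Hi.filter P) + #(L.filter P) := by
    intro P _
    rw [hHi, hL, filter_comm, filter_comm _ P, card_filter_add_card_filter_not]
  have bare : ∀ u ∈ Hi, ∀ v ∈ S, u ≠ v → nb G S u ⊆ nb G S v → nb G S u ⊆ Hi := by
    intro u hu v hv n s t ht
    have := hn u (mem_filter.1 hu).1 v hv n (mem_filter.1 hu).2 s t ht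
    have := h.1 t (mem_nb.1 ht).1
    exact mem_filter.2 ⟨(mem_nb.1 ht).1, by omega⟩
  have lowN : ∀ u ∈ L, nb G S u ⊆ Hi := fun u hu t ht =>
    mem_filter.2 ⟨(mem_nb.1 ht).1, hq u (mL u hu).1 t (mem_nb.1 ht).1 (mem_nb.1 ht).2 (mL u hu).2⟩
  have inH : ∀ u v, nb G S u ⊆ Hi → nb G S u ⊆ nb G S v → #(nb G S u) ≤ #(Hi.filter (G.Adj v)) :=
    fun u v s1 s2 => card_le_card fun t ht => mem_filter.2 ⟨s1 ht, (mem_nb.1 (s2 ht)).2⟩
  have st : ∀ v ∈ Hi, #(Hi.filter (G.Adj v)) + #(L.filter (G.Adj v)) ≤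
      1 + #(Hi.filter fun u => u ≠ v ∧ nb G S u ⊆ nb G S v) +
        #(L.filter fun u => nb G S u ⊆ nb G S v) := by
    intro v hv
    have h1 := h.star hσ (mem_filter.1 hv).1
    rw [sp, show nb G S v = S.filter (G.Adj v) from rfl, sp] at h1
    have h2 : #(Hi.filter fun u => nb G S u ⊆ nb G S v) ≤
        #(insert v (Hi.filter fun u => u ≠ v ∧ nb G S u ⊆ nb G S v)) := card_le_card fun t ht => by
      simp only [mem_insert, mem_filter] at ht ⊢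
      tauto
    have h3 := card_insert_le v (Hi.filter fun u => u ≠ v ∧ nb G S u ⊆ nb G S v)
    change _ ≤ #(Hi.filter fun u => nb G S u ⊆ nb G S v) + #(L.filter fun u => nb G S u ⊆ nb G S v)
      at h1
    omega
  have dH : ∀ v ∈ Hi, 2 ≤ #(Hi.filter (G.Adj v)) := by
    intro v hv
    by_contra hlt
    have e1 : (Hi.filter fun u => u ≠ v ∧ nb G S u ⊆ nb G S v) = ∅ :=
      filter_eq_empty_iff.2 fun u hu hh => by
        have := inH u v (bare u hu v (mem_filter.1 hv).1 hh.1 hh.2) hh.2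
        have := (mem_filter.1 hu).2
        omega
    have e2 : (L.filter fun u => nb G S u ⊆ nb G S v) = ∅ :=
      filter_eq_empty_iff.2 fun u hu hh => by
        have := inH u v (lowN u hu) hh
        have := (mL u hu).2
        omega
    have h1 := st v hv
    have h2 := (mem_filter.1 hv).2
    rw [show nb G S v = S.filter (G.Adj v) from rfl, sp] at h2
    rw [e1, e2] at h1
    simp only [card_empty] at h1
    omega
  have eH : ∀ u ∈ Hi, #(Hi.filter fun v => u ≠ v ∧ nb G S u ⊆ nb G S v) + 2 ≤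
      #(Hi.filter (G.Adj u)) := by
    intro u hu
    rcases (Hi.filter fun v => u ≠ v ∧ nb G S u ⊆ nb G S v).eq_empty_or_nonempty with e | ⟨v, hv⟩
    · simpa [e] using dH u hu
    obtain ⟨v1, v2, v3⟩ := mem_filter.1 hv
    have h1 := inH u u (bare u hu v (mem_filter.1 v1).1 v2 v3) Subset.rfl
    have h2 := (mem_filter.1 hu).2
    have h3 : #(Hi.filter fun v => u ≠ v ∧ nb G S u ⊆ nb G S v) ≤ 1 :=
      card_le_one.2 fun a ha b hb => by
        by_contra n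
        exact no_three hG (mem_filter.1 ha).2.1 (mem_filter.1 hb).2.1 n h2 (mem_filter.1 ha).2.2
          (mem_filter.1 hb).2.2
    omega
  have s1 := sum_le_sum st
  have s2 := sum_le_sum eH
  simp only [sum_add_distrib, sum_const, smul_eq_mul] at s1 s2
  rw [dbl Hi L G.Adj, dbl Hi Hi (fun v u => u ≠ v ∧ nb G S u ⊆ nb G S v),
    dbl Hi L (fun v u => nb G S u ⊆ nb G S v)] at s1
  have s3 : ∑ u ∈ L, #(Hi.filter fun v => nb G S u ⊆ nb G S v) ≤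
      ∑ u ∈ L, #(Hi.filter fun v => G.Adj v u) := sum_le_sum fun u hu => by
    have h1 := hc u (mL u hu).1 (mL u hu).2
    have h2 := inH u u (lowN u hu) Subset.rfl
    rw [(mL u hu).2] at h2
    rw [hHi, filter_filter]
    refine h1.trans (h2.trans (le_of_eq ?_))
    simp only [G.adj_comm, hHi]
  have s4 : 0 < #Hi := by
    obtain ⟨v, hv⟩ := ne
    by_cases e : 3 ≤ #(nb G S v)
    · exact card_pos.2 ⟨v, mem_filter.2 ⟨hv, e⟩⟩
    · obtain ⟨t, ht, a⟩ := h.nbr hv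
      exact card_pos.2 ⟨t, lowN v (mem_filter.2 ⟨hv, e⟩) (mem_nb.2 ⟨ht, a⟩)⟩
  omega

/-- all vertices of degree two on the pair `p p'` -/
def tws (G : SimpleGraph V) [DecidableRel G.Adj] (S : Finset V) (p p' : V) : Finset V :=
  S.filter fun t => nb G S t = {p, p'}

@[simp] theorem mem_tws {p p' t : V} : t ∈ tws G S p p' ↔ t ∈ S ∧ nb G S t = {p, p'} := by
  simp [tws]

theorem Ext.tws_card (h : Ext G S) (hσ : ∀ u v, G.Adj u v → σ u ≠ σ v) {p p' z : V} (n : p ≠ p')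
    (hz : z ∈ tws G S p p') : 2 ≤ #(tws G S p p') := by
  obtain ⟨z1, z2⟩ := mem_tws.1 hz
  obtain ⟨z', a, b, c⟩ := h.twin hσ z1 (by rw [z2, card_pair n])
  exact one_lt_card.2 ⟨z', mem_tws.2 ⟨a, c.trans z2⟩, z, hz, b⟩

theorem Ext.k4 (h : Ext G S) (hσ : ∀ u v, G.Adj u v → σ u ≠ σ v) (hG : IsPlanar G)
    (hq : NoSq G S) (ne : S.Nonempty) (hc : Codeg G S) :
    ∃ u ∈ S, ∃ v ∈ S, ∃ q q' z, u ≠ v ∧ q ≠ q' ∧ 3 ≤ #(nb G S u) ∧ nb G S u ⊆ nb G S v ∧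
      nb G S u = {q, q'} ∪ tws G S u v ∧ 2 ≤ #(tws G S u v) ∧ z ∈ tws G S q q' := by
  obtain ⟨u, hu, v, hv, n, h3, s, z, hz, z2⟩ := h.dominated hσ hG hq ne hc
  have low : ∀ t ∈ nb G S u, #(nb G S t) = 2 → t ∈ tws G S u v := fun t ht t2 =>
    mem_tws.2 ⟨(mem_nb.1 ht).1,
      nb_eq_pair t2 n hu hv (mem_nb.1 ht).2.symm (mem_nb.1 (s ht)).2.symm⟩
  set H := (nb G S u).filter fun t => 3 ≤ #(nb G S t) with hH
  have cH : #H ≤ 2 := by
    refine le_trans (card_le_card fun t ht => ?_) (hc z (mem_nb.1 hz).1 z2)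
    obtain ⟨t1, t2⟩ := mem_filter.1 ht
    refine mem_filter.2 ⟨(mem_nb.1 t1).1, t2, ?_⟩
    rw [(mem_tws.1 (low z hz z2)).2]
    exact insert_subset (mem_nb.2 ⟨hu, (mem_nb.1 t1).2.symm⟩)
      (by simpa using ⟨hv, (mem_nb.1 (s t1)).2.symm⟩)
  have ex : ∃ z ∈ S, #(nb G S z) = 2 ∧ nb G S z ⊆ nb G S u := by
    by_contra hn
    push Not at hn
    have : (S.filter fun t => nb G S t ⊆ nb G S u) ⊆ {u, v} := fun t ht => by
      obtain ⟨t1, t2⟩ := mem_filter.1 ht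
      by_contra hm
      have t3 : #(nb G S t) ≠ 2 := fun e => hn t t1 e t2
      have t4 : nb G S t ⊆ H := fun w hw => mem_filter.2 ⟨t2 hw, by
        by_contra w3
        have := h.1 w (mem_nb.1 hw).1
        exact hm ((mem_tws.1 (low w (t2 hw) (by omega))).2 ▸ mem_nb.2 ⟨t1, (mem_nb.1 hw).2.symm⟩)⟩
      have := card_le_card t4
      have := h.1 t t1
      omega
    have := card_le_card this
    have := card_le_two (a := u) (b := v)
    have := h.star hσ hu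
    omega
  obtain ⟨z1, a1, a2, a3⟩ := ex
  have e : nb G S z1 = H := eq_of_subset_of_card_le (fun t ht => mem_filter.2
    ⟨a3 ht, hq z1 a1 t (mem_nb.1 ht).1 (mem_nb.1 ht).2 a2⟩) (by omega)
  obtain ⟨q, q', nq, eq⟩ := card_eq_two.1 a2
  refine ⟨u, hu, v, hv, q, q', z1, n, nq, h3, s, ?_, h.tws_card hσ n (low z hz z2),
    mem_tws.2 ⟨a1, eq⟩⟩
  rw [← eq, e]
  ext t
  simp only [mem_union, hH, mem_filter]
  refine ⟨fun ht => ?_, ?_⟩
  · by_cases t3 : 3 ≤ #(nb G S t)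
    · exact Or.inl ⟨ht, t3⟩
    · have := h.1 t (mem_nb.1 ht).1
      exact Or.inr (low t ht (by omega))
  · rintro (ht | ht)
    · exact ht.1
    · exact mem_nb.2 ⟨(mem_tws.1 ht).1, ((nb_pair (mem_tws.1 ht).2).2 (Or.inl rfl)).2.symm⟩

end Pool.Agent.MP_31805c_co.H93
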