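import Mathlib

/-! Planar graphs, independent domination and the extremal family. -/

namespace Pool.Agent.MP_31805c_co.H93

open Set

variable {V : Type}

/-- `G` is planar: vertices are distinct points of the plane, edges are simple arcs joining their
ends, no arc passes through a third vertex, and two different arcs meet only at a common end. -/
def IsPlanar (G : SimpleGraph V) : Prop :=
  ∃ (pos : V → ℂ) (γ : V → V → ℝ → ℂ), Function.Injective pos ∧
    (∀ u v, G.Adj u v → ContinuousOn (γ u v) (Icc 0 1) ∧ InjOn (γ u v) (Icc 0 1) ∧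
      γ u v 0 = pos u ∧ γ u v 1 = pos v ∧ γ u v '' Icc 0 1 = γ v u '' Icc 0 1) ∧
    (∀ u v w, G.Adj u v → pos w ∈ γ u v '' Icc 0 1 → w = u ∨ w = v) ∧
    (∀ u v u' v', G.Adj u v → G.Adj u' v' → s(u, v) ≠ s(u', v') →
      ∀ p ∈ γ u v '' Icc 0 1, p ∈ γ u' v' '' Icc 0 1 →
        ∃ w, (w = u ∨ w = v) ∧ (w = u' ∨ w = v') ∧ p = pos w)

/-- `I` is an independent dominating set of `G`. -/
def IndDom (G : SimpleGraph V) (I : Finset V) : Prop :=
  (∀ u ∈ I, ∀ v ∈ I, ¬ G.Adj u v) ∧ ∀ v, v ∉ I → ∃ u ∈ I, G.Adj v u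

/-- The independent domination number. -/
noncomputable def iDom (G : SimpleGraph V) : ℕ := sInf {k | ∃ I, IndDom G I ∧ I.card = k}

variable [DecidableEq V]

/-- `FIDOM(G) ≥ 2`: there is a nonempty finite family of independent dominating sets (repetitions
allowed) such that every vertex lies in at most half of its members. -/
def TwoLeFidom (G : SimpleGraph V) : Prop :=
  ∃ (k : ℕ) (F : Fin k → Finset V), 0 < k ∧ (∀ i, IndDom G (F i)) ∧
    ∀ v, 2 * (Finset.univ.filter fun i => v ∈ F i).card ≤ k

/-- The neighbours of `v` inside `S`. -/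
def nb (G : SimpleGraph V) [DecidableRel G.Adj] (S : Finset V) (v : V) : Finset V :=
  S.filter (G.Adj v)

/-- `Built G S`: the subgraph of `G` induced on `S` arises from the empty graph by adding disjoint
4-cycles and by stacking: take a path `x y x'` and a vertex `a ≠ y` of degree two adjacent to `x`
and `x'`, and add a vertex `z` adjacent to `x` and `x'`, a set `A` of `w ≥ 1` vertices adjacent
exactly to `x` and `x'`, and a set `B` of `w + 1` vertices adjacent exactly to `y` and `z`. -/
inductive Built (G : SimpleGraph V) [DecidableRel G.Adj] : Finset V → Prop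
  | nil : Built G ∅
  | square (S T : Finset V) (x x' y y' : V) : Built G S → T = S ∪ {x, x', y, y'} →
      x ∉ S → x' ∉ S → y ∉ S → y' ∉ S → x ≠ x' → y ≠ y' →
      nb G T x = {y, y'} → nb G T x' = {y, y'} → nb G T y = {x, x'} → nb G T y' = {x, x'} →
      Built G T
  | stack (S T A B : Finset V) (x x' y a z : V) : Built G S → T = insert z (S ∪ A ∪ B) →
      y ∈ S → a ∈ S → a ≠ y → x ≠ x' → G.Adj y x → G.Adj y x' → nb G S a = {x, x'} →
      z ∉ S → z ∉ A → z ∉ B → Disjoint A S → Disjoint B S → Disjoint A B →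
      1 ≤ A.card → B.card = A.card + 1 → nb G T z = {x, x'} ∪ B →
      (∀ v ∈ A, nb G T v = {x, x'}) → (∀ v ∈ B, nb G T v = {y, z}) → Built G T

end Pool.Agent.MP_31805c_co.H93
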