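import Pool.Agent.MP_31805c_co.H93.Defs

/-! Extremal bipartite vertex sets, regions cut off by a path `x y x'`, and the transfer lemma. -/

namespace Pool.Agent.MP_31805c_co.H93

open Finset

variable {V : Type} [DecidableEq V] {G : SimpleGraph V} [DecidableRel G.Adj]

omit [DecidableEq V] in
@[simp] theorem mem_nb {S : Finset V} {v t : V} : t ∈ nb G S v ↔ t ∈ S ∧ G.Adj v t := by
  simp [nb]

omit [DecidableEq V] in
theorem nb_congr {S S' : Finset V} {v : V} (h : S' ⊆ S) (h' : ∀ t ∈ S, G.Adj v t → t ∈ S') :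
    nb G S' v = nb G S v := by
  ext t
  simp only [mem_nb]
  exact ⟨fun a => ⟨h a.1, a.2⟩, fun a => ⟨h' t a.1 a.2, a.2⟩⟩

/-- independent dominating sets of the subgraph induced on `S` -/
def ID (G : SimpleGraph V) (S I : Finset V) : Prop :=
  I ⊆ S ∧ (∀ u ∈ I, ∀ v ∈ I, ¬ G.Adj u v) ∧ ∀ v ∈ S, v ∉ I → ∃ u ∈ I, G.Adj v u

/-- minimum degree two and no independent dominating set smaller than half -/
def Ext (G : SimpleGraph V) [DecidableRel G.Adj] (S : Finset V) : Prop :=
  (∀ v ∈ S, 2 ≤ #(nb G S v)) ∧ ∀ I, ID G S I → #S ≤ 2 * #I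

/-- one side of the bipartition -/
def side (σ : V → Bool) (S : Finset V) (b : Bool) : Finset V := S.filter (σ · = b)

omit [DecidableEq V] in
@[simp] theorem mem_side {σ : V → Bool} {S : Finset V} {b : Bool} {t : V} :
    t ∈ side σ S b ↔ t ∈ S ∧ σ t = b := by simp [side]

variable {σ : V → Bool} {S : Finset V}

omit [DecidableEq V] in
theorem side_add (σ : V → Bool) (S : Finset V) (b : Bool) :
    #(side σ S b) + #(side σ S (!b)) = #S := by
  rw [← card_filter_add_card_filter_not (s := S) (σ · = b)]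
  simp only [side, Bool.eq_not, ne_eq]

omit [DecidableEq V] in
theorem Ext.nbr (h : Ext G S) {v : V} (hv : v ∈ S) : ∃ t ∈ S, G.Adj v t := by
  obtain ⟨t, ht⟩ : (nb G S v).Nonempty := card_pos.1 (by have := h.1 v hv; omega)
  exact ⟨t, (mem_nb.1 ht).1, (mem_nb.1 ht).2⟩

omit [DecidableEq V] in
theorem Ext.nbr_ne (h : Ext G S) {v : V} (hv : v ∈ S) (y : V) : ∃ t ∈ S, G.Adj v t ∧ t ≠ y := by
  obtain ⟨t, ht, h'⟩ := exists_mem_ne (s := nb G S v) (by have := h.1 v hv; omega) y
  exact ⟨t, (mem_nb.1 ht).1, (mem_nb.1 ht).2, h'⟩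

theorem Ext.nbr_pair (h : Ext G S) {v x x' : V} (hv : v ∈ S) (hn : nb G S v ≠ {x, x'}) :
    ∃ t ∈ S, G.Adj v t ∧ t ≠ x ∧ t ≠ x' := by
  by_contra hc
  push Not at hc
  refine hn (eq_of_subset_of_card_le (fun t ht => ?_) (card_le_two.trans (h.1 v hv)))
  by_cases e : t = x
  · simp [e]
  · simp [hc t (mem_nb.1 ht).1 (mem_nb.1 ht).2 e]

omit [DecidableEq V] in
theorem Ext.half (h : Ext G S) (hσ : ∀ u v, G.Adj u v → σ u ≠ σ v) (b : Bool) :
    2 * #(side σ S b) = #S := by
  have h1 : ∀ b, #S ≤ 2 * #(side σ S b) := fun b => h.2 _ ⟨filter_subset _ _,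
    fun u hu v hv a => hσ u v a ((mem_side.1 hu).2.trans (mem_side.1 hv).2.symm), fun v hv hn => by
      obtain ⟨t, ht, a⟩ := h.nbr hv
      refine ⟨t, mem_side.2 ⟨ht, ?_⟩, a⟩
      have := hσ _ _ a
      simp only [mem_side, hv, true_and] at hn
      revert hn this; cases σ v <;> cases σ t <;> cases b <;> simp⟩
  have h2 := side_add σ S b
  have := h1 b
  have := h1 (!b)
  omega

theorem Ext.star (h : Ext G S) (hσ : ∀ u v, G.Adj u v → σ u ≠ σ v) {v : V} (hv : v ∈ S) :
    #(nb G S v) ≤ #(S.filter fun u => nb G S u ⊆ nb G S v) := by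
  have hs : nb G S v ⊆ side σ S (!σ v) := fun t ht => by
    have := hσ _ _ (mem_nb.1 ht).2
    refine mem_side.2 ⟨(mem_nb.1 ht).1, ?_⟩
    revert this; cases σ v <;> cases σ t <;> simp
  have h1 := h.2 ((S.filter fun u => nb G S u ⊆ nb G S v) ∪ (side σ S (!σ v) \ nb G S v)) ⟨?_, ?_, ?_⟩
  · have h2 := card_union_le (S.filter fun u => nb G S u ⊆ nb G S v) (side σ S (!σ v) \ nb G S v)
    have h3 := card_sdiff_add_card_eq_card hs
    have h4 := h.half hσ (!σ v)
    omega
  · exact union_subset (filter_subset _ _) (sdiff_subset.trans (filter_subset _ _))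
  · have same : ∀ u ∈ S, nb G S u ⊆ nb G S v → σ u = σ v := fun u hu hs' => by
      obtain ⟨t, ht, a⟩ := h.nbr hu
      have h1 := hσ _ _ a
      have h2 := hσ _ _ (mem_nb.1 (hs' (mem_nb.2 ⟨ht, a⟩))).2
      revert h1 h2; cases σ v <;> cases σ t <;> cases σ u <;> simp
    intro u hu w hw a
    simp only [mem_union, mem_filter, mem_sdiff, mem_side] at hu hw
    rcases hu with hu | hu <;> rcases hw with hw | hw
    · exact hσ _ _ a ((same u hu.1 hu.2).trans (same w hw.1 hw.2).symm)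
    · exact hw.2 (hu.2 (mem_nb.2 ⟨hw.1.1, a⟩))
    · exact hu.2 (hw.2 (mem_nb.2 ⟨hu.1.1, a.symm⟩))
    · exact hσ _ _ a (hu.1.2.trans hw.1.2.symm)
  · intro u hu hn
    simp only [mem_union, mem_filter, mem_sdiff, mem_side, not_or, not_and, not_not] at hn
    by_cases e : σ u = !σ v
    · exact ⟨v, mem_union_left _ (mem_filter.2 ⟨hv, Subset.rfl⟩),
        (mem_nb.1 (hn.2 ⟨hu, e⟩)).2.symm⟩
    · obtain ⟨t, ht, ht'⟩ := not_subset.1 (hn.1 hu)
      refine ⟨t, mem_union_right _ (mem_sdiff.2 ⟨mem_side.2 ⟨(mem_nb.1 ht).1, ?_⟩, ht'⟩),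
        (mem_nb.1 ht).2⟩
      have := hσ _ _ (mem_nb.1 ht).2
      revert this e; cases σ v <;> cases σ t <;> cases σ u <;> simp

/-- `R` is attached to the rest of `S` only through the path `x y x'`, the pair `x x'` carries a
vertex `a` of degree two, and no such vertex lies in `R`. -/
structure Reg (G : SimpleGraph V) [DecidableRel G.Adj] (S : Finset V) (x x' y a : V)
    (R : Finset V) : Prop where
  ne : x ≠ x'
  hy : y ∈ S
  ha : a ∈ S
  ay : a ≠ y
  yx : G.Adj y x
  yx' : G.Adj y x'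
  na : nb G S a = {x, x'}
  sub : R ⊆ S
  xR : x ∉ R
  x'R : x' ∉ R
  yR : y ∉ R
  cl : ∀ r ∈ R, ∀ t ∈ S, G.Adj r t → t ∈ R ∨ t = x ∨ t = x' ∨ t = y
  nt : ∀ r ∈ R, nb G S r ≠ {x, x'}

/-- the vertices of degree two on the pair `x x'` other than `y` -/
def tw (G : SimpleGraph V) [DecidableRel G.Adj] (S : Finset V) (x x' y : V) : Finset V :=
  S.filter fun u => nb G S u = {x, x'} ∧ u ≠ y

@[simp] theorem mem_tw {x x' y t : V} :
    t ∈ tw G S x x' y ↔ t ∈ S ∧ nb G S t = {x, x'} ∧ t ≠ y := by simp [tw]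

/-- the path, some vertices of degree two and a region -/
def cut (x x' y : V) (W R : Finset V) : Finset V := insert x (insert x' (insert y (W ∪ R)))

@[simp] theorem mem_cut {x x' y t : V} {W R : Finset V} :
    t ∈ cut x x' y W R ↔ t = x ∨ t = x' ∨ t = y ∨ t ∈ W ∨ t ∈ R := by simp [cut]

variable {x x' y a : V} {R : Finset V}

theorem nb_pair {u t : V} (h : nb G S u = {x, x'}) : t ∈ S ∧ G.Adj u t ↔ t = x ∨ t = x' := by
  rw [← mem_nb, h]; simp

theorem Reg.hx (r : Reg G S x x' y a R) : x ∈ S ∧ G.Adj a x := (nb_pair r.na).2 (Or.inl rfl)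

theorem Reg.hx' (r : Reg G S x x' y a R) : x' ∈ S ∧ G.Adj a x' := (nb_pair r.na).2 (Or.inr rfl)

theorem Reg.atw (r : Reg G S x x' y a R) : a ∈ tw G S x x' y := mem_tw.2 ⟨r.ha, r.na, r.ay⟩

/-- the complementary region -/
theorem Reg.out (r : Reg G S x x' y a R) :
    Reg G S x x' y a (S \ cut x x' y (tw G S x x' y) R) where
  ne := r.ne
  hy := r.hy
  ha := r.ha
  ay := r.ay
  yx := r.yx
  yx' := r.yx'
  na := r.na
  sub := sdiff_subset
  xR := by simp
  x'R := by simp
  yR := by simp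
  cl := by
    intro u hu t ht h
    simp only [mem_sdiff, mem_cut, not_or] at hu ⊢
    by_contra hc
    simp only [not_or, not_and, not_not] at hc
    by_cases e : t ∈ tw G S x x' y
    · rcases (nb_pair (mem_tw.1 e).2.1).1 ⟨hu.1, h.symm⟩ with e | e
      exacts [hu.2.1 e, hu.2.2.1 e]
    · have := r.cl t (hc.1 ht hc.2.1 hc.2.2.1 hc.2.2.2 e) u hu.1 h.symm
      tauto
  nt := by
    intro u hu e
    simp only [mem_sdiff, mem_cut, not_or, mem_tw] at hu
    exact hu.2.2.2.2.1 ⟨hu.1, e, hu.2.2.2.1⟩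

theorem Reg.cutsub (r : Reg G S x x' y a R) {W : Finset V} (hW : W ⊆ tw G S x x' y) :
    cut x x' y W R ⊆ S := by
  intro t ht
  rcases mem_cut.1 ht with rfl | rfl | rfl | h | h
  exacts [r.hx.1, r.hx'.1, r.hy, (mem_tw.1 (hW h)).1, r.sub h]

theorem Reg.sides (r : Reg G S x x' y a R) (hσ : ∀ u v, G.Adj u v → σ u ≠ σ v) :
    σ x' = σ x ∧ σ y = (!σ x) ∧ ∀ u ∈ tw G S x x' y, σ u = !σ x := by
  have h1 := hσ _ _ r.yx
  have h2 := hσ _ _ r.yx'
  refine ⟨?_, ?_, fun u hu => ?_⟩
  · revert h1 h2; cases σ x <;> cases σ x' <;> cases σ y <;> simp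
  · revert h1; cases σ x <;> cases σ y <;> simp
  · have := hσ _ _ ((nb_pair (mem_tw.1 hu).2.1).2 (Or.inl rfl)).2
    revert this; cases σ x <;> cases σ u <;> simp

theorem Reg.cards (r : Reg G S x x' y a R) (hσ : ∀ u v, G.Adj u v → σ u ≠ σ v)
    {W : Finset V} (hW : W ⊆ tw G S x x' y) :
    #(side σ (cut x x' y W R) (σ x)) = 2 + #(side σ R (σ x)) ∧
      #(side σ (cut x x' y W R) (!σ x)) = 1 + #W + #(side σ R (!σ x)) := by
  obtain ⟨s1, s2, s3⟩ := r.sides hσ
  constructor
  · have : side σ (cut x x' y W R) (σ x) = insert x (insert x' (side σ R (σ x))) := by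
      ext t
      simp only [mem_side, mem_cut, mem_insert]
      constructor
      · rintro ⟨rfl | rfl | rfl | h | h, e⟩
        · exact Or.inl rfl
        · exact Or.inr (Or.inl rfl)
        · simp [s2] at e
        · simp [s3 t (hW h)] at e
        · exact Or.inr (Or.inr ⟨h, e⟩)
      · rintro (rfl | rfl | h)
        · simp
        · simp [s1]
        · simp [h]
    rw [this, card_insert_of_notMem (by simp [r.ne, r.xR]), card_insert_of_notMem (by simp [r.x'R])]
    omega
  · have : side σ (cut x x' y W R) (!σ x) = insert y (W ∪ side σ R (!σ x)) := by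
      ext t
      simp only [mem_side, mem_cut, mem_insert, mem_union]
      constructor
      · rintro ⟨rfl | rfl | rfl | h | h, e⟩
        · simp at e
        · simp [s1] at e
        · exact Or.inl rfl
        · exact Or.inr (Or.inl h)
        · exact Or.inr (Or.inr ⟨h, e⟩)
      · rintro (rfl | h | h)
        · simp [s2]
        · simp [h, s3 t (hW h)]
        · simp [h]
    rw [this, card_insert_of_notMem, card_union_of_disjoint]
    · omega
    · exact disjoint_left.2 fun t h h' => r.nt t (mem_side.1 h').1 (mem_tw.1 (hW h)).2.1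
    · simp only [mem_union, mem_side, not_or, not_and]
      exact ⟨fun h => (mem_tw.1 (hW h)).2.2 rfl, fun h => absurd h r.yR⟩

omit [DecidableEq V] in
theorem side_split [DecidableEq V] {T : Finset V} (h : T ⊆ S) (b : Bool) :
    #(side σ S b) = #(side σ T b) + #(side σ (S \ T) b) := by
  rw [← card_union_of_disjoint]
  · congr 1
    ext t
    simp only [mem_side, mem_union, mem_sdiff]
    have := @h t
    tauto
  · exact disjoint_left.2 fun t h1 h2 => (mem_sdiff.1 (mem_side.1 h2).1).2 (mem_side.1 h1).1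

/-- inside a region, vertices on the side of `y` have a neighbour in the region -/
theorem Reg.domY (r : Reg G S x x' y a R) (h : Ext G S) (hσ : ∀ u v, G.Adj u v → σ u ≠ σ v)
    {u : V} (hu : u ∈ R) (e : σ u ≠ σ x) : ∃ t ∈ side σ R (σ x), G.Adj u t := by
  obtain ⟨t, ht, a, n1, n2⟩ := h.nbr_pair (r.sub hu) (r.nt u hu)
  have s2 := (r.sides hσ).2.1
  have := hσ _ _ a
  have e' : σ t = σ x := by revert this e; cases σ x <;> cases σ t <;> cases σ u <;> simp
  rcases r.cl u hu t ht a with h | h | h | rfl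
  · exact ⟨t, mem_side.2 ⟨h, e'⟩, a⟩
  · exact absurd h n1
  · exact absurd h n2
  · simp [s2] at e'

/-- inside a region, vertices on the side of `x` have a neighbour in the region -/
theorem Reg.domX (r : Reg G S x x' y a R) (h : Ext G S) (hσ : ∀ u v, G.Adj u v → σ u ≠ σ v)
    {u : V} (hu : u ∈ R) (e : σ u ≠ !σ x) : ∃ t ∈ side σ R (!σ x), G.Adj u t := by
  obtain ⟨t, ht, a, n1⟩ := h.nbr_ne (r.sub hu) y
  have s1 := (r.sides hσ).1
  have := hσ _ _ a
  have e' : σ t = !σ x := by revert this e; cases σ x <;> cases σ t <;> cases σ u <;> simp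
  rcases r.cl u hu t ht a with h | rfl | rfl | h
  · exact ⟨t, mem_side.2 ⟨h, e'⟩, a⟩
  · simp at e'
  · simp [s1] at e'
  · exact absurd h n1

theorem Reg.ge (r : Reg G S x x' y a R) (h : Ext G S) (hσ : ∀ u v, G.Adj u v → σ u ≠ σ v) :
    #(side σ R (!σ x)) ≤ #(side σ R (σ x)) := by
  set O := S \ cut x x' y (tw G S x x' y) R with hO
  have ro : Reg G S x x' y a O := r.out
  obtain ⟨s1, s2, s3⟩ := r.sides hσ
  set I := side σ R (σ x) ∪ (side σ O (!σ x) ∪ tw G S x x' y) with hI
  have i1 : I ⊆ S := union_subset ((filter_subset _ _).trans r.sub)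
    (union_subset ((filter_subset _ _).trans ro.sub) (filter_subset _ _))
  have i0 : ∀ u ∈ side σ R (σ x), ∀ v ∈ side σ O (!σ x) ∪ tw G S x x' y, ¬ G.Adj u v := by
    intro u hu v hv a
    rcases mem_union.1 hv with hv | hv
    · have := (mem_side.1 hv).1
      simp only [hO, mem_sdiff, mem_cut, not_or] at this
      have := r.cl u (mem_side.1 hu).1 v this.1 a
      tauto
    · rcases (nb_pair (mem_tw.1 hv).2.1).1 ⟨r.sub (mem_side.1 hu).1, a.symm⟩ with rfl | rfl
      exacts [r.xR (mem_side.1 hu).1, r.x'R (mem_side.1 hu).1]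
  have sy : ∀ v ∈ side σ O (!σ x) ∪ tw G S x x' y, σ v = !σ x := fun v hv => by
    rcases mem_union.1 hv with hv | hv
    exacts [(mem_side.1 hv).2, s3 v hv]
  have i2 : ∀ u ∈ I, ∀ v ∈ I, ¬ G.Adj u v := by
    intro u hu v hv a
    rcases mem_union.1 hu with hu | hu <;> rcases mem_union.1 hv with hv | hv
    · exact hσ _ _ a ((mem_side.1 hu).2.trans (mem_side.1 hv).2.symm)
    · exact i0 u hu v hv a
    · exact i0 v hv u hu a.symm
    · exact hσ _ _ a ((sy u hu).trans (sy v hv).symm)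
  have aI : a ∈ I := mem_union_right _ (mem_union_right _ r.atw)
  have i3 : ∀ v ∈ S, v ≠ y → v ∉ I → ∃ u ∈ I, G.Adj v u := by
    intro v hv vy hn
    simp only [hI, mem_union, mem_side, not_or, not_and] at hn
    by_cases e : v ∈ cut x x' y (tw G S x x' y) R
    · rcases mem_cut.1 e with rfl | rfl | rfl | e | e
      · exact ⟨a, aI, r.hx.2.symm⟩
      · exact ⟨a, aI, r.hx'.2.symm⟩
      · exact absurd rfl vy
      · exact absurd e hn.2.2
      · obtain ⟨t, ht, a⟩ := r.domY h hσ e (hn.1 e)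
        exact ⟨t, mem_union_left _ ht, a⟩
    · have e' : v ∈ O := mem_sdiff.2 ⟨hv, e⟩
      obtain ⟨t, ht, a⟩ := ro.domX h hσ e' (hn.2.1 e')
      exact ⟨t, mem_union_right _ (mem_union_left _ ht), a⟩
  have c0 : #S ≤ 2 * (#I + 1) := by
    by_cases e : ∃ u ∈ I, G.Adj y u
    · have := h.2 I ⟨i1, i2, fun v hv hn => by
        by_cases vy : v = y
        · exact vy ▸ e
        · exact i3 v hv vy hn⟩
      omega
    · push Not at e
      have := h.2 (insert y I) ⟨insert_subset r.hy i1, ?_, fun v hv hn => ?_⟩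
      · have := card_insert_le y I
        omega
      · intro u hu v hv a
        rcases mem_insert.1 hu with rfl | hu <;> rcases mem_insert.1 hv with rfl | hv
        exacts [a.ne rfl, e v hv a, e u hu a.symm, i2 u hu v hv a]
      · simp only [mem_insert, not_or] at hn
        obtain ⟨u, hu, a⟩ := i3 v hv hn.1 hn.2
        exact ⟨u, mem_insert_of_mem hu, a⟩
  have c1 := card_union_le (side σ R (σ x)) (side σ O (!σ x) ∪ tw G S x x' y)
  have c2 := card_union_le (side σ O (!σ x)) (tw G S x x' y)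
  have c3 := (r.cards hσ Subset.rfl).2
  have c4 := side_split (σ := σ) (r.cutsub Subset.rfl) (!σ x)
  have c5 := h.half hσ (!σ x)
  rw [← hO] at c4
  rw [← hI] at c1
  omega

theorem Reg.count (r : Reg G S x x' y a R) (h : Ext G S) (hσ : ∀ u v, G.Adj u v → σ u ≠ σ v) :
    #(tw G S x x' y) + #(side σ R (!σ x)) +
        #(side σ (S \ cut x x' y (tw G S x x' y) R) (!σ x)) =
      1 + #(side σ R (σ x)) + #(side σ (S \ cut x x' y (tw G S x x' y) R) (σ x)) := by
  obtain ⟨c1, c2⟩ := r.cards hσ Subset.rfl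
  have c3 := side_split (σ := σ) (r.cutsub Subset.rfl) (!σ x)
  have c4 := side_split (σ := σ) (r.cutsub Subset.rfl) (σ x)
  have c5 := h.half hσ (!σ x)
  have c6 := h.half hσ (σ x)
  omega

theorem Reg.nbR (r : Reg G S x x' y a R) {W : Finset V} (hW : W ⊆ tw G S x x' y) {u : V}
    (hu : u ∈ W ∨ u ∈ R) : nb G (cut x x' y W R) u = nb G S u := by
  refine nb_congr (r.cutsub hW) fun t ht a => mem_cut.2 ?_
  rcases hu with hu | hu
  · have := (nb_pair (mem_tw.1 (hW hu)).2.1).1 ⟨ht, a⟩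
    tauto
  · have := r.cl u hu t ht a
    tauto

theorem Reg.transfer (r : Reg G S x x' y a R) (h : Ext G S) (hσ : ∀ u v, G.Adj u v → σ u ≠ σ v)
    {W : Finset V} (hW : W ⊆ tw G S x x' y)
    (hc : #W + #(side σ R (!σ x)) = 1 + #(side σ R (σ x))) : Ext G (cut x x' y W R) := by
  set O := S \ cut x x' y (tw G S x x' y) R with hO
  have ro : Reg G S x x' y a O := r.out
  obtain ⟨s1, s2, s3⟩ := r.sides hσ
  obtain ⟨b, hb⟩ : W.Nonempty := card_pos.1 (by have := r.ge h hσ; omega)
  have wx : ∀ u ∈ tw G S x x' y, G.Adj u x ∧ G.Adj u x' := fun u hu =>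
    ⟨((nb_pair (mem_tw.1 hu).2.1).2 (Or.inl rfl)).2, ((nb_pair (mem_tw.1 hu).2.1).2 (Or.inr rfl)).2⟩
  have two : ∀ v p q, p ≠ q → p ∈ cut x x' y W R → q ∈ cut x x' y W R → G.Adj v p → G.Adj v q →
      2 ≤ #(nb G (cut x x' y W R) v) := fun v p q n h1 h2 a1 a2 =>
    one_lt_card.2 ⟨p, mem_nb.2 ⟨h1, a1⟩, q, mem_nb.2 ⟨h2, a2⟩, n⟩
  have by' : b ≠ y := (mem_tw.1 (hW hb)).2.2
  have cross : ∀ u ∈ cut x x' y W R, ∀ v ∈ O, G.Adj u v → u = x ∨ u = x' ∨ u = y := by
    intro u hu v hv a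
    rcases ro.cl v hv u (r.cutsub hW hu) a.symm with e | e
    · simp only [hO, mem_sdiff, mem_cut, not_or] at e
      rcases mem_cut.1 hu with e' | e' | e' | e' | e'
      · exact Or.inl e'
      · exact Or.inr (Or.inl e')
      · exact Or.inr (Or.inr e')
      · exact absurd (hW e') e.2.2.2.2.1
      · exact absurd e' e.2.2.2.2.2
    · exact e
  have tri : ∀ v ∈ S, v ∈ cut x x' y W R ∨ v ∈ tw G S x x' y ∨ v ∈ O := by
    intro v hv
    simp only [hO, mem_sdiff, mem_cut, hv, true_and]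
    tauto
  obtain ⟨c1, c2⟩ := r.cards hσ hW
  obtain ⟨c3, c4⟩ := r.cards hσ Subset.rfl
  have c5 := side_split (σ := σ) (r.cutsub Subset.rfl) (!σ x)
  have c6 := side_split (σ := σ) (r.cutsub Subset.rfl) (σ x)
  have c7 := h.half hσ (!σ x)
  have c8 := h.half hσ (σ x)
  have c9 := side_add σ (cut x x' y W R) (σ x)
  rw [← hO] at c5 c6
  refine ⟨fun v hv => ?_, fun I ⟨i1, i2, i3⟩ => ?_⟩
  · rcases mem_cut.1 hv with rfl | rfl | rfl | e | e
    · exact two _ b y by' (by simp [hb]) (by simp) (wx b (hW hb)).1.symm r.yx.symm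
    · exact two _ b y by' (by simp [hb]) (by simp) (wx b (hW hb)).2.symm r.yx'.symm
    · exact two _ x x' r.ne (by simp) (by simp) r.yx r.yx'
    · rw [r.nbR hW (Or.inl e)]; exact h.1 v (mem_tw.1 (hW e)).1
    · rw [r.nbR hW (Or.inr e)]; exact h.1 v (r.sub e)
  by_cases hx : ∃ z ∈ I, z = x ∨ z = x'
  · obtain ⟨z, zI, hz⟩ := hx
    have yI : y ∉ I := fun e => i2 y e z zI (by rcases hz with rfl | rfl; exacts [r.yx, r.yx'])
    have i0 : ∀ u ∈ I, ∀ v ∈ side σ O (σ x), ¬ G.Adj u v := by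
      intro u hu v hv a
      rcases cross u (i1 hu) v (mem_side.1 hv).1 a with rfl | rfl | rfl
      exacts [hσ _ _ a (mem_side.1 hv).2.symm, hσ _ _ a (s1.trans (mem_side.1 hv).2.symm), yI hu]
    have := h.2 (I ∪ side σ O (σ x)) ⟨union_subset (i1.trans (r.cutsub hW))
      ((filter_subset _ _).trans ro.sub), ?_, ?_⟩
    · have := card_union_le I (side σ O (σ x))
      omega
    · intro u hu v hv a
      rcases mem_union.1 hu with hu | hu <;> rcases mem_union.1 hv with hv | hv
      exacts [i2 u hu v hv a, i0 u hu v hv a, i0 v hv u hu a.symm,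
        hσ _ _ a ((mem_side.1 hu).2.trans (mem_side.1 hv).2.symm)]
    · intro v hv hn
      simp only [mem_union, mem_side, not_or, not_and] at hn
      rcases tri v hv with e | e | e
      · obtain ⟨u, hu, a⟩ := i3 v e hn.1
        exact ⟨u, mem_union_left _ hu, a⟩
      · exact ⟨z, mem_union_left _ zI, by rcases hz with rfl | rfl; exacts [(wx v e).1, (wx v e).2]⟩
      · obtain ⟨t, ht, a⟩ := ro.domY h hσ e (hn.2 e)
        exact ⟨t, mem_union_right _ ht, a⟩
  · push Not at hx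
    have sy : ∀ v ∈ (tw G S x x' y \ W) ∪ side σ O (!σ x), σ v = !σ x := fun v hv => by
      rcases mem_union.1 hv with hv | hv
      exacts [s3 v (mem_sdiff.1 hv).1, (mem_side.1 hv).2]
    have i0 : ∀ u ∈ I, ∀ v ∈ (tw G S x x' y \ W) ∪ side σ O (!σ x), ¬ G.Adj u v := by
      intro u hu v hv a
      rcases mem_union.1 hv with hv' | hv'
      · rcases (nb_pair (mem_tw.1 (mem_sdiff.1 hv').1).2.1).1 ⟨r.cutsub hW (i1 hu), a.symm⟩ with
          e | e
        exacts [(hx u hu).1 e, (hx u hu).2 e]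
      · rcases cross u (i1 hu) v (mem_side.1 hv').1 a with e | e | rfl
        exacts [(hx u hu).1 e, (hx u hu).2 e, hσ _ _ a (s2.trans (sy v hv).symm)]
    have := h.2 (I ∪ ((tw G S x x' y \ W) ∪ side σ O (!σ x))) ⟨union_subset (i1.trans (r.cutsub hW))
      (union_subset (sdiff_subset.trans (filter_subset _ _)) ((filter_subset _ _).trans ro.sub)),
      ?_, ?_⟩
    · have := card_union_le I ((tw G S x x' y \ W) ∪ side σ O (!σ x))
      have := card_union_le (tw G S x x' y \ W) (side σ O (!σ x))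
      have := card_sdiff_add_card_eq_card hW
      omega
    · intro u hu v hv a
      rcases mem_union.1 hu with hu | hu <;> rcases mem_union.1 hv with hv | hv
      exacts [i2 u hu v hv a, i0 u hu v hv a, i0 v hv u hu a.symm,
        hσ _ _ a ((sy u hu).trans (sy v hv).symm)]
    · intro v hv hn
      simp only [mem_union, mem_side, mem_sdiff, not_or, not_and, not_not] at hn
      have inn : v ∈ cut x x' y W R → ∃ u ∈ I ∪ ((tw G S x x' y \ W) ∪ side σ O (!σ x)),
          G.Adj v u := fun e => by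
        obtain ⟨u, hu, a⟩ := i3 v e hn.1
        exact ⟨u, mem_union_left _ hu, a⟩
      rcases tri v hv with e | e | e
      · exact inn e
      · exact inn (by simp [hn.2.1 e])
      · obtain ⟨t, ht, a⟩ := ro.domX h hσ e (hn.2.2 e)
        exact ⟨t, mem_union_right _ (mem_union_right _ ht), a⟩

end Pool.Agent.MP_31805c_co.H93
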