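import Pool.Agent.MP_31805c_co.H93.Count

/-! A minimal region is a single stacked layer. -/

namespace Pool.Agent.MP_31805c_co.H93

open Finset

variable {V : Type} [DecidableEq V] {G : SimpleGraph V} [DecidableRel G.Adj]
variable {σ : V → Bool} {S R W : Finset V} {x x' y a : V}

omit [DecidableEq V] [DecidableRel G.Adj] in
theorem no_tri (hσ : ∀ u v, G.Adj u v → σ u ≠ σ v) {u v w : V} (h1 : G.Adj u v) (h2 : G.Adj v w)
    (h3 : G.Adj u w) : False := by
  have e1 := hσ _ _ h1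
  have e2 := hσ _ _ h2
  have e3 := hσ _ _ h3
  revert e1 e2 e3; cases σ u <;> cases σ v <;> cases σ w <;> simp

theorem Reg.symm (r : Reg G S x x' y a R) : Reg G S x' x y a R where
  ne := r.ne.symm
  hy := r.hy
  ha := r.ha
  ay := r.ay
  yx := r.yx'
  yx' := r.yx
  na := r.na.trans (pair_comm _ _)
  sub := r.sub
  xR := r.x'R
  x'R := r.xR
  yR := r.yR
  cl := fun u hu t ht h => by have := r.cl u hu t ht h; tauto
  nt := fun u hu h => r.nt u hu (h.trans (pair_comm _ _))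

theorem Reg.change (r : Reg G S x x' y a R) {b : V} (hb : b ∈ tw G S x x' y) :
    Reg G S x x' y b R :=
  { r with ha := (mem_tw.1 hb).1, ay := (mem_tw.1 hb).2.2, na := (mem_tw.1 hb).2.1 }

/-- a closed nonempty set contains a smaller nonempty region -/
theorem Ext.closed (h : Ext G S) (hσ : ∀ u v, G.Adj u v → σ u ≠ σ v) (hG : IsPlanar G)
    (hq : NoSq G S) (hR : R ⊆ S) (ne : R.Nonempty) (cl : ∀ r ∈ R, ∀ t ∈ S, G.Adj r t → t ∈ R) :
    ∃ p p' v u R1, Reg G S p p' v u R1 ∧ R1.Nonempty ∧ #R1 < #R := by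
  obtain ⟨u, hu, u2⟩ := h.low hσ hG hR ne cl
  obtain ⟨v, hv, n, e⟩ := h.twin hσ (hR hu) u2
  obtain ⟨p, p', np, ep⟩ := card_eq_two.1 u2
  have hp := (nb_pair ep).2 (Or.inl rfl)
  have ev := e.trans ep
  refine ⟨p, p', v, u, R \ cut p p' v (tw G S p p' v) ∅, ⟨np, hv, hR hu, n.symm,
    ((nb_pair ev).2 (Or.inl rfl)).2, ((nb_pair ev).2 (Or.inr rfl)).2, ep, sdiff_subset.trans hR,
    by simp, by simp, by simp, ?_, ?_⟩, ?_, ?_⟩
  · intro r hr t ht adj
    simp only [mem_sdiff, mem_cut, not_or] at hr ⊢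
    have h1 := cl r hr.1 t ht adj
    by_cases e : t ∈ tw G S p p' v
    · have := (nb_pair (mem_tw.1 e).2.1).1 ⟨hR hr.1, adj.symm⟩
      tauto
    · simp only [h1, e, notMem_empty]
      tauto
  · intro r hr e
    simp only [mem_sdiff, mem_cut, not_or, mem_tw] at hr
    exact hr.2.2.2.2.1 ⟨hR hr.1, e, hr.2.2.2.1⟩
  · by_contra hn
    rw [not_nonempty_iff_eq_empty, sdiff_eq_empty_iff_subset] at hn
    have h1 := h.star hσ hp.1
    have h2 := hq u (hR hu) p hp.1 hp.2 u2
    have h3 : (S.filter fun t => nb G S t ⊆ nb G S p) ⊆ {p, p'} := fun t ht => by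
      obtain ⟨t1, t2⟩ := mem_filter.1 ht
      obtain ⟨s, hs, adj⟩ := h.nbr t1
      have s1 := (mem_nb.1 (t2 (mem_nb.2 ⟨hs, adj⟩))).2
      have no : nb G S t ≠ {p, p'} := fun e => (mem_nb.1 (t2 (e ▸ mem_insert_self _ _))).2.ne rfl
      rcases mem_cut.1 (hn (cl s (cl p (cl u hu p hp.1 hp.2) s hs s1) t t1 adj.symm)) with
        rfl | rfl | rfl | e | e
      · simp
      · simp
      · exact absurd ev no
      · exact absurd (mem_tw.1 e).2.1 no
      · simp at e
    have := card_le_card h3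
    have := card_le_two (a := p) (b := p')
    omega
  · refine card_lt_card ⟨sdiff_subset, fun hs => (mem_sdiff.1 (hs hu)).2 ?_⟩
    simp [hR hu, ep, n.symm]

/-- a smallest nonempty region together with the balancing vertices of degree two -/
structure Least (G : SimpleGraph V) [DecidableRel G.Adj] (S : Finset V) (x x' y a : V)
    (R W : Finset V) : Prop where
  r : Reg G S x x' y a R
  hW : W ⊆ tw G S x x' y
  aW : a ∈ W
  ne : R.Nonempty
  le : ∀ p p' v u R1, Reg G S p p' v u R1 → R1.Nonempty → #R ≤ #R1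
  ext : Ext G (cut x x' y W R)

theorem cut_comm : cut x' x y W R = cut x x' y W R := insert_comm _ _ _

theorem Least.symm (m : Least G S x x' y a R W) : Least G S x' x y a R W where
  r := m.r.symm
  hW := fun t ht => by
    have := mem_tw.1 (m.hW ht)
    exact mem_tw.2 ⟨this.1, this.2.1.trans (pair_comm _ _), this.2.2⟩
  aW := m.aW
  ne := m.ne
  le := m.le
  ext := cut_comm (x := x) ▸ m.ext

theorem Ext.least (h : Ext G S) (hσ : ∀ u v, G.Adj u v → σ u ≠ σ v) (hG : IsPlanar G)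
    (hq : NoSq G S) (ne : S.Nonempty) : ∃ x x' y a R W, Least G S x x' y a R W := by
  have ex : ∃ n, ∃ p p' v u R1, Reg G S p p' v u R1 ∧ R1.Nonempty ∧ #R1 = n := by
    obtain ⟨p, p', v, u, R1, h1, h2, -⟩ := h.closed hσ hG hq Subset.rfl ne fun _ _ _ ht _ => ht
    exact ⟨_, p, p', v, u, R1, h1, h2, rfl⟩
  classical
  obtain ⟨x, x', y, a, R, r, h2, h3⟩ := Nat.find_spec ex
  have c1 := r.ge h hσ
  have c2 := r.out.ge h hσ
  have c3 := r.count h hσ
  obtain ⟨W, hW, cW⟩ := exists_subset_card_eq (s := tw G S x x' y)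
    (n := 1 + #(side σ R (σ x)) - #(side σ R (!σ x))) (by omega)
  obtain ⟨b, hb⟩ : W.Nonempty := card_pos.1 (by omega)
  exact ⟨x, x', y, b, R, W, r.change (hW hb), hW, hb, h2, fun p p' v u R1 h4 h5 =>
    h3 ▸ Nat.find_min' ex ⟨p, p', v, u, R1, h4, h5, rfl⟩, r.transfer h hσ hW (by omega)⟩

theorem Least.nbW (m : Least G S x x' y a R W) {u : V} (hu : u ∈ W) :
    nb G (cut x x' y W R) u = {x, x'} := (m.r.nbR m.hW (Or.inl hu)).trans (mem_tw.1 (m.hW hu)).2.1

theorem Least.lowW (m : Least G S x x' y a R W) {u : V} (hu : u ∈ W) :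
    #(nb G (cut x x' y W R) u) = 2 := by rw [m.nbW hu, card_pair m.r.ne]

theorem Least.nbY (m : Least G S x x' y a R W) (h2 : #(nb G (cut x x' y W R) y) = 2) :
    nb G (cut x x' y W R) y = {x, x'} :=
  nb_eq_pair h2 m.r.ne (by simp) (by simp) m.r.yx m.r.yx'

theorem Least.high (m : Least G S x x' y a R W) (h : Ext G S) (hσ : ∀ u v, G.Adj u v → σ u ≠ σ v)
    (hG : IsPlanar G) (hq : NoSq G S) : 3 ≤ #(nb G (cut x x' y W R) x) := by
  by_contra hn
  have h2 : #(nb G (cut x x' y W R) x) = 2 := by have := m.ext.1 x (by simp); omega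
  have ha : a ∈ cut x x' y W R := by simp [m.aW]
  obtain ⟨a', -, x2, -, n1, n2, e1, e2, e3, e4⟩ :=
    m.ext.square hσ ha (by simp) m.r.hx.2 (m.lowW m.aW) h2
  have f1 : x' = x2 := ((nb_pair e1).1 ⟨by simp, m.r.hx'.2⟩).resolve_left m.r.ne.symm
  have f2 : y = a' := ((nb_pair e3).1 ⟨by simp, m.r.yx.symm⟩).resolve_left m.r.ay.symm
  subst f1 f2
  obtain ⟨p, p', v, u, R1, h1, h3, h4⟩ := h.closed hσ hG hq m.r.sub m.ne fun r hr t ht adj => by
    have r1 : r ∈ cut x x' y W R := by simp [hr]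
    have r2 : r ≠ a := fun e => m.r.nt r hr (e ▸ m.r.na)
    have r3 : r ≠ y := fun e => m.r.yR (e ▸ hr)
    rcases m.r.cl r hr t ht adj with e | rfl | rfl | rfl
    · exact e
    · have := (nb_pair e3).1 ⟨r1, adj.symm⟩
      tauto
    · have := (nb_pair e4).1 ⟨r1, adj.symm⟩
      tauto
    · rcases (nb_pair e2).1 ⟨r1, adj.symm⟩ with rfl | rfl
      exacts [absurd hr m.r.xR, absurd hr m.r.x'R]
  have := m.le p p' v u R1 h1 h3
  omega

theorem Least.high' (m : Least G S x x' y a R W) (h : Ext G S) (hσ : ∀ u v, G.Adj u v → σ u ≠ σ v)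
    (hG : IsPlanar G) (hq : NoSq G S) : 3 ≤ #(nb G (cut x x' y W R) x') :=
  cut_comm (x := x) ▸ m.symm.high h hσ hG hq

/-- a vertex of degree two lies in the region or on the pair `x x'` -/
theorem Least.low (m : Least G S x x' y a R W) (h : Ext G S) (hσ : ∀ u v, G.Adj u v → σ u ≠ σ v)
    (hG : IsPlanar G) (hq : NoSq G S) {u : V} (hu : u ∈ cut x x' y W R)
    (h2 : #(nb G (cut x x' y W R) u) = 2) : u ∈ R ∨ nb G (cut x x' y W R) u = {x, x'} := by
  have h3 := m.high h hσ hG hq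
  have h4 := m.high' h hσ hG hq
  rcases mem_cut.1 hu with rfl | rfl | rfl | e | e
  · omega
  · omega
  exacts [Or.inr (m.nbY h2), Or.inr (m.nbW e), Or.inl e]

theorem Least.noSq (m : Least G S x x' y a R W) (h : Ext G S) (hσ : ∀ u v, G.Adj u v → σ u ≠ σ v)
    (hG : IsPlanar G) (hq : NoSq G S) : NoSq G (cut x x' y W R) := by
  intro u hu v hv adj u2
  by_contra hn
  have v2 : #(nb G (cut x x' y W R) v) = 2 := by have := m.ext.1 v hv; omega
  have h3 := m.high h hσ hG hq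
  have h4 := m.high' h hσ hG hq
  have key : ∀ u ∈ cut x x' y W R, ∀ v ∈ cut x x' y W R, G.Adj u v →
      #(nb G (cut x x' y W R) u) = 2 → #(nb G (cut x x' y W R) v) = 2 → u ∈ R := by
    intro u hu v hv adj u2 v2
    refine (m.low h hσ hG hq hu u2).resolve_right fun e => ?_
    rcases (nb_pair e).1 ⟨hv, adj⟩ with rfl | rfl <;> omega
  have u3 := key u hu v hv adj u2 v2
  have v3 := key v hv u hu adj.symm v2 u2
  rw [m.r.nbR m.hW (Or.inr u3)] at u2
  rw [m.r.nbR m.hW (Or.inr v3)] at v2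
  have := hq u (m.r.sub u3) v (m.r.sub v3) adj u2
  omega

/-- a region of the cut-off part inside `R` is a region of the whole -/
theorem Least.lift (m : Least G S x x' y a R W) (h : Ext G S) (hσ : ∀ u v, G.Adj u v → σ u ≠ σ v)
    (hG : IsPlanar G) (hq : NoSq G S) {p p' v u : V} {R1 : Finset V}
    (r : Reg G (cut x x' y W R) p p' v u R1) (hR : R1 ⊆ R)
    (hv : 3 ≤ #(nb G (cut x x' y W R) v)) : ∃ u', Reg G S p p' v u' R1 := by
  have sub := m.r.cutsub m.hW
  obtain ⟨u', h1, h2, h3⟩ : ∃ u' ∈ S, u' ≠ v ∧ nb G S u' = {p, p'} := by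
    rcases m.low h hσ hG hq r.ha (by rw [r.na, card_pair r.ne]) with e | e
    · exact ⟨u, sub r.ha, r.ay, (m.r.nbR m.hW (Or.inr e)).symm.trans r.na⟩
    · refine ⟨a, m.r.ha, ?_, m.r.na.trans (e.symm.trans r.na)⟩
      rintro rfl
      have := m.lowW m.aW
      omega
  refine ⟨u', r.ne, sub r.hy, h1, h2, r.yx, r.yx', h3, hR.trans m.r.sub, r.xR, r.x'R, r.yR,
    fun s hs t ht adj => r.cl s hs t ?_ adj, fun s hs => m.r.nbR m.hW (Or.inr (hR hs)) ▸ r.nt s hs⟩
  have := m.r.cl s (hR hs) t ht adj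
  simp only [mem_cut]
  tauto

theorem Least.sep (m : Least G S x x' y a R W) (h : Ext G S) (hσ : ∀ u v, G.Adj u v → σ u ≠ σ v)
    (hG : IsPlanar G) (hq : NoSq G S) {p p' u v v' v'' : V} (np : p ≠ p')
    (hu : u ∈ cut x x' y W R) (eu : nb G (cut x x' y W R) u = {p, p'})
    (n1 : v ≠ v') (n2 : v ≠ v'')
    (hi : ∀ w ∈ ({v, v', v''} : Finset V), w ∈ cut x x' y W R ∧ 3 ≤ #(nb G (cut x x' y W R) w) ∧
      G.Adj w p ∧ G.Adj w p') :
    Conn G ((cut x x' y W R : Set V) \ {p, p', v}) v' v'' := by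
  by_contra hn
  set T := cut x x' y W R with hT
  set U : Set V := (T : Set V) \ {p, p', v} with hU
  have mU : ∀ t, t ∈ U ↔ t ∈ T ∧ t ≠ p ∧ t ≠ p' ∧ t ≠ v := fun t => by simp [hU]
  have u2 : #(nb G T u) = 2 := by rw [eu, card_pair np]
  have hp := (nb_pair eu).2 (Or.inl rfl)
  have hp' := (nb_pair eu).2 (Or.inr rfl)
  have p3 := m.noSq h hσ hG hq u hu p hp.1 hp.2 u2
  have p3' := m.noSq h hσ hG hq u hu p' hp'.1 hp'.2 u2
  rw [← hT] at p3 p3'
  obtain ⟨v1, v2, v3, v4⟩ := hi v (by simp)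
  have tri : ∀ t ∈ T, 3 ≤ #(nb G T t) → t ∉ R → t ∈ ({x, x', y} : Finset V) := by
    intro t ht t3 tR
    rcases mem_cut.1 ht with rfl | rfl | rfl | e | e
    · simp
    · simp
    · simp
    · have := m.lowW e
      rw [← hT] at this
      omega
    · exact absurd e tR
  have comp : ∀ w w' : V, w ∈ ({v, v', v''} : Finset V) → w' ∈ ({v, v', v''} : Finset V) → v ≠ w →
      v ≠ w' → ¬ Conn G U w w' → ∃ s, Conn G U w s ∧ s ∈ U ∧ s ∉ R ∧ nb G T s ≠ {p, p'} := by
    intro w w' hw hw' m1 m2 nc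
    obtain ⟨w1, w2, w3, w4⟩ := hi w hw
    obtain ⟨z1, z2, z3, z4⟩ := hi w' hw'
    have wU : w ∈ U := (mU w).2 ⟨w1, w3.ne, w4.ne, m1.symm⟩
    have nt : ∀ s, Conn G U w s → nb G T s ≠ {p, p'} := by
      intro s hs e
      rcases Relation.ReflTransGen.cases_tail hs with rfl | ⟨t, -, t1, t2, -⟩
      · rw [e, card_pair np] at w2
        omega
      · have := (nb_pair e).1 ⟨((mU t).1 t2).1, t1.symm⟩
        have := (mU t).1 t2
        tauto
    by_contra hc
    push Not at hc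
    classical
    have r : Reg G T p p' v u (T.filter (Conn G U w)) := by
      refine ⟨np, v1, hu, ?_, v3, v4, eu, filter_subset _ _, ?_, ?_, ?_, ?_,
        fun s hs => nt s (mem_filter.1 hs).2⟩
      · rintro rfl
        omega
      · exact fun e => ((mU _).1 ((mem_filter.1 e).2.mem wU)).2.1 rfl
      · exact fun e => ((mU _).1 ((mem_filter.1 e).2.mem wU)).2.2.1 rfl
      · exact fun e => ((mU _).1 ((mem_filter.1 e).2.mem wU)).2.2.2 rfl
      · intro s hs t ht adj
        by_cases e : t ∈ U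
        · exact Or.inl (mem_filter.2 ⟨ht, (mem_filter.1 hs).2.trans
            (Conn.adj adj ((mem_filter.1 hs).2.mem wU) e)⟩)
        · rw [mU] at e
          tauto
    have sR : T.filter (Conn G U w) ⊆ R := fun s hs => by
      by_contra e
      exact nt s (mem_filter.1 hs).2 (hc s (mem_filter.1 hs).2 ((mem_filter.1 hs).2.mem wU) e)
    obtain ⟨u', r'⟩ := m.lift h hσ hG hq r sR v2
    have eR := eq_of_subset_of_card_le sR
      (m.le _ _ _ _ _ r' ⟨w, mem_filter.2 ⟨w1, Conn.refl _ _⟩⟩)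
    have sub : ({p, p', v, w'} : Finset V) ⊆ {x, x', y} := by
      intro t ht
      simp only [mem_insert, mem_singleton] at ht
      rcases ht with rfl | rfl | rfl | rfl
      · exact tri _ hp.1 p3 (eR ▸ r.xR)
      · exact tri _ hp'.1 p3' (eR ▸ r.x'R)
      · exact tri _ v1 v2 (eR ▸ r.yR)
      · exact tri _ z1 z2 (eR ▸ fun e => nc (mem_filter.1 e).2)
    have c1 := card_le_card sub
    have c2 := card_le_three (a := x) (b := x') (c := y)
    rw [card_insert_of_notMem (by simp [np, v3.ne', z3.ne']),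
      card_insert_of_notMem (by simp [v4.ne', z4.ne']), card_pair m2] at c1
    omega
  obtain ⟨s, s1, s2, s3, s4⟩ := comp v' v'' (by simp) (by simp) n1 n2 hn
  obtain ⟨t, t1, t2, t3, t4⟩ := comp v'' v' (by simp) (by simp) n2 n1 fun e => hn e.symm
  refine hn (s1.trans (Conn.trans ?_ t1.symm))
  have wU : ∀ w ∈ W, w ∈ U := fun w hw => by
    have := m.lowW hw
    rw [← hT] at this
    refine (mU w).2 ⟨by simp [hT, hw], ?_, ?_, ?_⟩ <;> rintro rfl <;> omega
  have wx : ∀ w ∈ W, G.Adj w x ∧ G.Adj w x' := fun w hw =>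
    ⟨((nb_pair (m.nbW hw)).2 (Or.inl rfl)).2, ((nb_pair (m.nbW hw)).2 (Or.inr rfl)).2⟩
  have hub : ∀ c ∈ U, c = x ∨ c = x' → ∀ s ∈ U, s ∉ R → Conn G U s c := by
    intro c hc e s hs sR
    have ac : Conn G U a c := Conn.adj (by
      rcases e with rfl | rfl
      exacts [(wx a m.aW).1, (wx a m.aW).2]) (wU a m.aW) hc
    rcases mem_cut.1 ((mU s).1 hs).1 with rfl | rfl | rfl | e' | e'
    · exact (Conn.adj (wx a m.aW).1.symm hs (wU a m.aW)).trans ac
    · exact (Conn.adj (wx a m.aW).2.symm hs (wU a m.aW)).trans ac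
    · exact Conn.adj (by rcases e with rfl | rfl; exacts [m.r.yx, m.r.yx']) hs hc
    · exact Conn.adj (by rcases e with rfl | rfl; exacts [(wx s e').1, (wx s e').2]) hs hc
    · exact absurd e' sR
  by_cases c1 : x ∈ U
  · exact (hub x c1 (Or.inl rfl) s s2 s3).trans (hub x c1 (Or.inl rfl) t t2 t3).symm
  by_cases c2 : x' ∈ U
  · exact (hub x' c2 (Or.inr rfl) s s2 s3).trans (hub x' c2 (Or.inr rfl) t t2 t3).symm
  have ep : ({x, x'} : Finset V) = {p, p'} := by
    have xx : ¬ G.Adj x x' := fun e => no_tri hσ m.r.yx e m.r.yx'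
    have ne := m.r.ne
    rw [mU] at c1 c2
    have d1 : x = p ∨ x = p' ∨ x = v := by have : x ∈ T := by simp [hT]
                                           tauto
    have d2 : x' = p ∨ x' = p' ∨ x' = v := by have : x' ∈ T := by simp [hT]
                                              tauto
    rcases d1 with rfl | rfl | rfl <;> rcases d2 with rfl | rfl | rfl
    · exact absurd rfl ne
    · rfl
    · exact absurd v3.symm xx
    · exact pair_comm _ _
    · exact absurd rfl ne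
    · exact absurd v4.symm xx
    · exact absurd v3 xx
    · exact absurd v4 xx
    · exact absurd rfl ne
  have isy : ∀ s ∈ U, s ∉ R → nb G T s ≠ {p, p'} → s = y := by
    intro s hs sR ns
    rcases mem_cut.1 ((mU s).1 hs).1 with rfl | rfl | rfl | e' | e'
    exacts [absurd hs c1, absurd hs c2, rfl, absurd ((m.nbW e').trans ep) ns, absurd e' sR]
  rw [isy s s2 s3 s4, isy t t2 t3 t4]
  exact Conn.refl _ _

theorem Least.codeg (m : Least G S x x' y a R W) (h : Ext G S) (hσ : ∀ u v, G.Adj u v → σ u ≠ σ v)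
    (hG : IsPlanar G) (hq : NoSq G S) : Codeg G (cut x x' y W R) := by
  intro u hu u2
  by_contra hn
  obtain ⟨v1, h1, v2, h2, v3, h3, n1, n2, n3⟩ := three (not_le.1 hn)
  obtain ⟨p, p', np, ep⟩ := card_eq_two.1 u2
  have hi : ∀ w ∈ (cut x x' y W R).filter fun v => 3 ≤ #(nb G (cut x x' y W R) v) ∧
      nb G (cut x x' y W R) u ⊆ nb G (cut x x' y W R) v,
      w ∈ cut x x' y W R ∧ 3 ≤ #(nb G (cut x x' y W R) w) ∧ G.Adj w p ∧ G.Adj w p' := by
    intro w hw
    obtain ⟨w1, w2, w3⟩ := mem_filter.1 hw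
    rw [ep] at w3
    exact ⟨w1, w2, (mem_nb.1 (w3 (by simp))).2, (mem_nb.1 (w3 (by simp))).2⟩
  obtain ⟨-, a1, b1, c1⟩ := hi v1 h1
  obtain ⟨-, a2, b2, c2⟩ := hi v2 h2
  obtain ⟨-, a3, b3, c3⟩ := hi v3 h3
  have na : ∀ s t, G.Adj s p → G.Adj t p → ¬ G.Adj s t := fun s t e1 e2 e3 => no_tri hσ e3 e2 e1
  refine separate hG (S := (cut x x' y W R : Set V)) (u := u) np n1 n2 n3 (by rintro rfl; omega)
    (by rintro rfl; omega) (by rintro rfl; omega) ((nb_pair ep).2 (Or.inl rfl)).2.symm b1.symm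
    b2.symm b3.symm ((nb_pair ep).2 (Or.inr rfl)).2.symm c1.symm c2.symm c3.symm
    (fun w hw e => (nb_pair ep).1 ⟨hw, e⟩) (na _ _ b2 b3) (na _ _ b3 b1) (na _ _ b1 b2)
    (m.sep h hσ hG hq np hu ep n1 n2 ?_) (m.sep h hσ hG hq np hu ep n3 n1.symm ?_)
    (m.sep h hσ hG hq np hu ep n2.symm n3.symm ?_) <;>
  · intro w hw
    simp only [mem_insert, mem_singleton] at hw
    rcases hw with rfl | rfl | rfl <;> exact hi _ (by assumption)

/-- a stacked layer -/
def Leaf (G : SimpleGraph V) [DecidableRel G.Adj] (S : Finset V) : Prop :=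
  ∃ x x' y a z B, Reg G S x x' y a (insert z B) ∧ z ∉ B ∧ 2 ≤ #B ∧ nb G S z = {x, x'} ∪ B ∧
    ∀ b ∈ B, nb G S b = {y, z}

theorem Reg.leaf (r : Reg G S x x' y a R) (hσ : ∀ u v, G.Adj u v → σ u ≠ σ v) {z : V}
    {B : Finset V} (zR : z ∈ R) (BR : B ⊆ R) (hR : R ⊆ insert z B) (a1 : G.Adj z x)
    (a2 : G.Adj z x') (hB : ∀ b ∈ B, nb G S b = {y, z}) (c : 2 ≤ #B) : Leaf G S := by
  have e : R = insert z B := Subset.antisymm hR (insert_subset zR BR)
  have zb : ∀ b ∈ B, G.Adj b z := fun b hb => ((nb_pair (hB b hb)).2 (Or.inr rfl)).2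
  refine ⟨x, x', y, a, z, B, e ▸ r, fun hz => (zb z hz).ne rfl, c, ?_, hB⟩
  ext t
  simp only [mem_nb, mem_union, mem_insert, mem_singleton]
  constructor
  · rintro ⟨t1, t2⟩
    rcases r.cl z zR t t1 t2 with e | e | e | rfl
    · exact Or.inr ((mem_insert.1 (hR e)).resolve_left t2.ne')
    · exact Or.inl (Or.inl e)
    · exact Or.inl (Or.inr e)
    · exact (no_tri hσ t2 r.yx a1).elim
  · rintro ((rfl | rfl) | e)
    exacts [⟨r.hx.1, a1⟩, ⟨r.hx'.1, a2⟩, ⟨r.sub (BR e), (zb t e).symm⟩]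

theorem Least.empty (m : Least G S x x' y a R W) {p p' v u z : V} {B : Finset V} (zR : z ∈ R)
    (r : Reg G S p p' v u (R \ insert z B)) : R ⊆ insert z B := by
  rw [← sdiff_eq_empty_iff_subset, ← not_nonempty_iff_eq_empty]
  intro hn
  have := m.le _ _ _ _ _ r hn
  have := card_lt_card (s := R \ insert z B) (t := R)
    ⟨sdiff_subset, fun hs => (mem_sdiff.1 (hs zR)).2 (mem_insert_self _ _)⟩
  omega

theorem Least.caseX (m : Least G S x x' y a R W) (h : Ext G S) (hσ : ∀ u v, G.Adj u v → σ u ≠ σ v)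
    (hG : IsPlanar G) (hq : NoSq G S) {v q q' z : V} (hv : v ∈ cut x x' y W R) (n1 : x ≠ v)
    (n2 : q ≠ q') (s : nb G (cut x x' y W R) x ⊆ nb G (cut x x' y W R) v)
    (e : nb G (cut x x' y W R) x = {q, q'} ∪ tws G (cut x x' y W R) x v)
    (hz : z ∈ tws G (cut x x' y W R) q q') : Leaf G S := by
  set T := cut x x' y W R with hT
  have aT : a ∈ T := by simp [hT, m.aW]
  have f : v = x' := ((nb_pair (m.nbW m.aW)).1
    ⟨hv, (mem_nb.1 (s (mem_nb.2 ⟨aT, m.r.hx.2.symm⟩))).2.symm⟩).resolve_left n1.symm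
  subst f
  have key : ∀ q q' : V, q ≠ q' → nb G T x = {q, q'} ∪ tws G T x v → z ∈ tws G T q q' →
      G.Adj x q ∧ G.Adj v q ∧ 3 ≤ #(nb G T q) ∧ (q ≠ y → q ∈ R) := by
    intro q q' n2 e hz
    have q1 : q ∈ nb G T x := by simp [e]
    have q2 := (nb_pair (mem_tws.1 hz).2).2 (Or.inl rfl)
    have q3 := m.noSq h hσ hG hq z (mem_tws.1 hz).1 q q2.1 q2.2
      (by rw [← hT, (mem_tws.1 hz).2, card_pair n2])
    refine ⟨(mem_nb.1 q1).2, (mem_nb.1 (s q1)).2, q3, fun qy => ?_⟩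
    rcases mem_cut.1 q2.1 with rfl | rfl | rfl | e' | e'
    · exact absurd rfl (mem_nb.1 q1).2.ne
    · exact absurd rfl (mem_nb.1 (s q1)).2.ne
    · exact absurd rfl qy
    · have := m.lowW e'
      omega
    · exact e'
  have main : ∀ q' : V, y ≠ q' → nb G T x = {y, q'} ∪ tws G T x v → z ∈ tws G T y q' →
      Leaf G S := by
    intro q' n2 e hz
    obtain ⟨k1, k2, k3, k4⟩ := key q' y n2.symm (by rw [e, pair_comm])
      (mem_tws.2 ⟨(mem_tws.1 hz).1, (mem_tws.1 hz).2.trans (pair_comm _ _)⟩)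
    have qR := k4 n2.symm
    have BR : tws G T y q' ⊆ R := fun b hb => by
      obtain ⟨b1, b2⟩ := mem_tws.1 hb
      refine (m.low h hσ hG hq b1 (by rw [← hT, b2, card_pair n2])).resolve_right fun e' => ?_
      rcases (nb_pair e').1 ((nb_pair b2).2 (Or.inl rfl)) with e'' | e''
      exacts [m.r.yx.ne e'', m.r.yx'.ne e'']
    have nB : ∀ b ∈ tws G T y q', nb G S b = {y, q'} := fun b hb =>
      (m.r.nbR m.hW (Or.inr (BR hb))).symm.trans (mem_tws.1 hb).2
    refine m.r.leaf hσ qR BR (m.empty (p := y) (p' := q') (v := v) (u := z) qR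
      ⟨n2, m.r.hx'.1, m.r.sub (BR hz), fun e' => m.r.x'R (e' ▸ BR hz), m.r.yx'.symm, k2, nB z hz,
        sdiff_subset.trans m.r.sub, by simp [m.r.yR], by simp, by simp [m.r.x'R], ?_, ?_⟩)
      k1.symm k2.symm nB (m.ext.tws_card hσ n2 hz)
    · intro r hr t ht adj
      simp only [mem_sdiff, mem_insert, not_or] at hr ⊢
      have ry : r ≠ y := fun e' => m.r.yR (e' ▸ hr.1)
      rcases m.r.cl r hr.1 t ht adj with e' | rfl | e' | e'
      · by_cases tB : t ∈ tws G T y q'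
        · have := (nb_pair (nB t tB)).1 ⟨m.r.sub hr.1, adj.symm⟩
          tauto
        · tauto
      · have : r ∈ nb G T t := mem_nb.2 ⟨by simp [hT, hr.1], adj.symm⟩
        rw [e] at this
        simp only [mem_union, mem_insert, mem_singleton, ry, hr.2.1, false_or] at this
        exact absurd ((m.r.nbR m.hW (Or.inr hr.1)).symm.trans (mem_tws.1 this).2) (m.r.nt r hr.1)
      · tauto
      · tauto
    · intro r hr e'
      simp only [mem_sdiff, mem_insert, not_or] at hr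
      exact hr.2.2 (mem_tws.2 ⟨by simp [hT, hr.1], (m.r.nbR m.hW (Or.inr hr.1)).trans e'⟩)
  have hz' : z ∈ tws G T q' q :=
    mem_tws.2 ⟨(mem_tws.1 hz).1, (mem_tws.1 hz).2.trans (pair_comm _ _)⟩
  have hy : y ∈ nb G T x := mem_nb.2 ⟨by simp [hT], m.r.yx.symm⟩
  rw [e] at hy
  simp only [mem_union, mem_insert, mem_singleton] at hy
  rcases hy with (rfl | rfl) | hy
  · exact main q' n2 e hz
  · exact main q n2.symm (by rw [e, pair_comm]) hz'
  obtain ⟨k1, k2, k3, k4⟩ := key q q' n2 e hz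
  obtain ⟨l1, l2, l3, l4⟩ := key q' q n2.symm (by rw [e, pair_comm]) hz'
  have y2 : #(nb G T y) = 2 := by rw [(mem_tws.1 hy).2, card_pair n1]
  have qR := k4 (by rintro rfl; omega)
  have qR' := l4 (by rintro rfl; omega)
  have := m.empty (B := ∅) (p := x) (p' := v) (v := q) (u := a) qR
    ⟨n1, m.r.sub qR, m.r.ha, fun e' => m.r.nt q qR (e' ▸ m.r.na), k1.symm, k2.symm, m.r.na,
      sdiff_subset.trans m.r.sub, by simp [m.r.xR], by simp [m.r.x'R], by simp, ?_,
      fun r hr => m.r.nt r (mem_sdiff.1 hr).1⟩ qR'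
  · simp [n2.symm] at this
  · intro r hr t ht adj
    simp only [mem_sdiff, mem_insert, notMem_empty, or_false] at hr ⊢
    rcases m.r.cl r hr.1 t ht adj with e' | e' | e' | rfl
    · tauto
    · tauto
    · tauto
    · rcases (nb_pair (mem_tws.1 hy).2).1 ⟨by simp [hT, hr.1], adj.symm⟩ with rfl | rfl
      exacts [absurd hr.1 m.r.xR, absurd hr.1 m.r.x'R]

theorem Ext.leaf (h : Ext G S) (hσ : ∀ u v, G.Adj u v → σ u ≠ σ v) (hG : IsPlanar G)
    (hq : NoSq G S) (ne : S.Nonempty) : Leaf G S := by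
  obtain ⟨x, x', y, a, R, W, m⟩ := h.least hσ hG hq ne
  have nq := m.noSq h hσ hG hq
  obtain ⟨u, hu, v, hv, q, q', z, n1, n2, u3, s, e, c, hz⟩ :=
    m.ext.k4 hσ hG nq ⟨x, by simp⟩ (m.codeg h hσ hG hq)
  set T := cut x x' y W R with hT
  have v3 : 3 ≤ #(nb G T v) := u3.trans (card_le_card s)
  have lowB : ∀ b ∈ tws G T u v, #(nb G T b) = 2 := fun b hb => by
    rw [(mem_tws.1 hb).2, card_pair n1]
  have BR : u ≠ x → u ≠ x' → tws G T u v ⊆ R := fun m1 m2 b hb =>
    (m.low h hσ hG hq (mem_tws.1 hb).1 (lowB b hb)).resolve_right fun e' => by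
      have := (nb_pair e').1 ((nb_pair (mem_tws.1 hb).2).2 (Or.inl rfl))
      tauto
  rcases mem_cut.1 hu with rfl | rfl | rfl | uW | uR
  · exact m.caseX h hσ hG hq hv n1 n2 s e hz
  · rw [hT, ← cut_comm] at hv s e hz
    exact m.symm.caseX h hσ hG hq hv n1 n2 s e hz
  · have BR := BR m.r.yx.ne m.r.yx'.ne
    have nB : ∀ b ∈ tws G T u v, nb G S b = {u, v} := fun b hb =>
      (m.r.nbR m.hW (Or.inr (BR hb))).symm.trans (mem_tws.1 hb).2
    have vx : G.Adj v x := (mem_nb.1 (s (mem_nb.2 ⟨by simp [hT], m.r.yx⟩))).2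
    have vx' : G.Adj v x' := (mem_nb.1 (s (mem_nb.2 ⟨by simp [hT], m.r.yx'⟩))).2
    have vR : v ∈ R := by
      rcases mem_cut.1 hv with e' | e' | e' | e' | e'
      · exact absurd e' vx.ne
      · exact absurd e' vx'.ne
      · exact absurd e'.symm n1
      · have := m.lowW e'
        rw [← hT] at this
        omega
      · exact e'
    have eq : ({x, x'} : Finset V) = {q, q'} := by
      refine eq_of_subset_of_card_le (fun t ht => ?_) (by rw [card_pair n2, card_pair m.r.ne])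
      have : t ∈ nb G T u ∧ t ∉ R := by
        simp only [mem_insert, mem_singleton] at ht
        rcases ht with rfl | rfl
        exacts [⟨mem_nb.2 ⟨by simp [hT], m.r.yx⟩, m.r.xR⟩, ⟨mem_nb.2 ⟨by simp [hT], m.r.yx'⟩, m.r.x'R⟩]
      exact (mem_union.1 (e ▸ this.1)).resolve_right fun e' => this.2 (BR e')
    refine m.r.leaf hσ vR BR (m.empty (p := x) (p' := x') (v := v) (u := a) vR
      ⟨m.r.ne, m.r.sub vR, m.r.ha, fun e' => m.r.nt v vR (e' ▸ m.r.na), vx, vx', m.r.na,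
        sdiff_subset.trans m.r.sub, by simp [m.r.xR], by simp [m.r.x'R], by simp, ?_,
        fun r hr => m.r.nt r (mem_sdiff.1 hr).1⟩) vx vx' nB c
    intro r hr t ht adj
    simp only [mem_sdiff, mem_insert, not_or] at hr ⊢
    have ry : r ≠ u := fun e' => m.r.yR (e' ▸ hr.1)
    rcases m.r.cl r hr.1 t ht adj with e' | e' | e' | rfl
    · by_cases tB : t ∈ tws G T u v
      · have := (nb_pair (nB t tB)).1 ⟨m.r.sub hr.1, adj.symm⟩
        tauto
      · tauto
    · tauto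
    · tauto
    · have : r ∈ nb G T t := mem_nb.2 ⟨by simp [hT, hr.1], adj.symm⟩
      rw [e, ← eq] at this
      simp only [mem_union, mem_insert, mem_singleton, hr.2.2, or_false] at this
      rcases this with rfl | rfl
      exacts [absurd hr.1 m.r.xR, absurd hr.1 m.r.x'R]
  · have := m.lowW uW
    rw [← hT] at this
    omega
  · have BR := BR (fun e' => m.r.xR (e' ▸ uR)) (fun e' => m.r.x'R (e' ▸ uR))
    obtain ⟨z1, z2⟩ := mem_tws.1 hz
    have zl : #(nb G T z) = 2 := by rw [z2, card_pair n2]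
    have q1 : q ∈ nb G T u := by simp [e]
    have q2 : q' ∈ nb G T u := by simp [e]
    have q3 := nq z z1 q (mem_nb.1 q1).1 ((nb_pair z2).2 (Or.inl rfl)).2 zl
    have q4 := nq z z1 q' (mem_nb.1 q2).1 ((nb_pair z2).2 (Or.inr rfl)).2 zl
    have hiB : ∀ t, 3 ≤ #(nb G T t) → t ∉ tws G T u v := fun t t3 ht => by
      have := lowB t ht
      omega
    have r : Reg G T q q' v z (insert u (tws G T u v)) := by
      refine ⟨n2, hv, z1, by rintro rfl; omega, (mem_nb.1 (s q1)).2, (mem_nb.1 (s q2)).2, z2,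
        insert_subset hu (filter_subset _ _), ?_, ?_, ?_, ?_, ?_⟩
      · exact fun e' => (mem_insert.1 e').elim (mem_nb.1 q1).2.ne' (hiB q q3)
      · exact fun e' => (mem_insert.1 e').elim (mem_nb.1 q2).2.ne' (hiB q' q4)
      · exact fun e' => (mem_insert.1 e').elim n1.symm (hiB v v3)
      · intro r hr t ht adj
        rcases mem_insert.1 hr with rfl | hr
        · have : t ∈ nb G T r := mem_nb.2 ⟨ht, adj⟩
          rw [e] at this
          simp only [mem_union, mem_insert, mem_singleton] at this ⊢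
          tauto
        · have := (nb_pair (mem_tws.1 hr).2).1 ⟨ht, adj⟩
          simp only [mem_insert]
          tauto
      · intro r hr e'
        rcases mem_insert.1 hr with rfl | hr
        · rw [e', card_pair n2] at u3
          omega
        · rcases (nb_pair e').1 ((nb_pair (mem_tws.1 hr).2).2 (Or.inl rfl)) with e'' | e''
          exacts [(mem_nb.1 q1).2.ne e'', (mem_nb.1 q2).2.ne e'']
    obtain ⟨z', r'⟩ := m.lift h hσ hG hq r (insert_subset uR BR) v3
    exact ⟨q, q', v, z', u, _, r', hiB u u3, c, (m.r.nbR m.hW (Or.inr uR)).symm.trans e,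
      fun b hb => (m.r.nbR m.hW (Or.inr (BR hb))).symm.trans
        ((mem_tws.1 hb).2.trans (pair_comm _ _))⟩

end Pool.Agent.MP_31805c_co.H93
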