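import Pool.Agent.MP_31805c_co.H93.Leaf

/-! The extremal graphs are exactly the built ones. -/

namespace Pool.Agent.MP_31805c_co.H93

open Finset

variable {V : Type} [DecidableEq V] {G : SimpleGraph V} [DecidableRel G.Adj]
variable {σ : V → Bool}

theorem Ext.built (hσ : ∀ u v, G.Adj u v → σ u ≠ σ v) (hG : IsPlanar G) (S : Finset V)
    (h : Ext G S) : Built G S := by
  induction S using Finset.strongInduction with
  | H S ih =>
  rcases S.eq_empty_or_nonempty with rfl | ne
  · exact Built.nil
  by_cases hq : NoSq G S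
  · obtain ⟨x, x', y, a, z, B, r, zB, c, nz, nB⟩ := h.leaf hσ hG hq ne
    set O := S \ cut x x' y (tw G S x x' y) (insert z B) with hO
    have ro : Reg G S x x' y a O := r.out
    obtain ⟨s1, s2, s3⟩ := r.sides hσ
    have zx : G.Adj z x := (mem_nb.1 (show x ∈ nb G S z by simp [nz])).2
    have e1 : σ z = !σ x := by
      have := hσ _ _ zx
      revert this; cases σ z <;> cases σ x <;> simp
    have e2 : ∀ b ∈ B, σ b = σ x := fun b hb => by
      have := hσ _ _ ((nb_pair (nB b hb)).2 (Or.inl rfl)).2
      rw [s2] at this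
      revert this; cases σ b <;> cases σ x <;> simp
    have e3 : side σ (insert z B) (σ x) = B := by
      ext t
      simp only [mem_side, mem_insert]
      refine ⟨?_, fun ht => ⟨Or.inr ht, e2 t ht⟩⟩
      rintro ⟨rfl | ht, e⟩
      · simp [e1] at e
      · exact ht
    have e4 : side σ (insert z B) (!σ x) = {z} := by
      ext t
      simp only [mem_side, mem_insert, mem_singleton]
      refine ⟨?_, fun ht => ⟨Or.inl ht, ht ▸ e1⟩⟩
      rintro ⟨rfl | ht, e⟩
      · rfl
      · simp [e2 t ht] at e
    have c1 := r.count h hσ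
    have c2 := ro.ge h hσ
    rw [e3, e4, ← hO, card_singleton] at c1
    obtain ⟨W, hW, cW⟩ := exists_subset_card_eq (s := tw G S x x' y)
      (n := 1 + #(side σ O (σ x)) - #(side σ O (!σ x))) (by omega)
    obtain ⟨b, hb⟩ : W.Nonempty := card_pos.1 (by omega)
    have c3 := card_sdiff_add_card_eq_card hW
    have nL : ∀ t ∈ insert z B, t ∉ tw G S x x' y := fun t ht e => r.nt t ht (mem_tw.1 e).2.1
    have out : ∀ t ∈ insert z B, t ∉ cut x x' y W O := by
      intro t ht e
      rcases mem_cut.1 e with rfl | rfl | rfl | e | e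
      exacts [r.xR ht, r.x'R ht, r.yR ht, nL t ht (hW e), (mem_sdiff.1 e).2 (mem_cut.2 (by tauto))]
    have zS := r.sub (mem_insert_self z B)
    refine Built.stack (cut x x' y W O) S (tw G S x x' y \ W) B x x' y b z
      (ih _ ⟨ro.cutsub hW, fun hs => out z (mem_insert_self _ _) (hs zS)⟩
        (ro.transfer h hσ hW (by omega))) ?_ (by simp) (by simp [hb]) (mem_tw.1 (hW hb)).2.2 r.ne
      r.yx r.yx' ((ro.nbR hW (Or.inl hb)).trans (mem_tw.1 (hW hb)).2.1)
      (out z (mem_insert_self _ _)) (fun e => nL z (mem_insert_self _ _) (mem_sdiff.1 e).1) zB ?_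
      (disjoint_left.2 fun t ht => out t (mem_insert_of_mem ht))
      (disjoint_left.2 fun t ht e => nL t (mem_insert_of_mem e) (mem_sdiff.1 ht).1) (by omega)
      (by omega) nz (fun v hv => (mem_tw.1 (mem_sdiff.1 hv).1).2.1) nB
    · refine Subset.antisymm (fun t ht => ?_) (insert_subset zS (union_subset (union_subset
        (ro.cutsub hW) (sdiff_subset.trans (filter_subset _ _)))
        ((subset_insert _ _).trans r.sub)))
      simp only [hO, mem_insert, mem_union, mem_cut, mem_sdiff, ht, true_and]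
      tauto
    · refine disjoint_left.2 fun t ht e => ?_
      obtain ⟨t1, t2⟩ := mem_sdiff.1 ht
      have t3 := (mem_tw.1 t1).2
      rcases mem_cut.1 e with rfl | rfl | rfl | e | e
      exacts [((nb_pair t3.1).2 (Or.inl rfl)).2.ne rfl, ((nb_pair t3.1).2 (Or.inr rfl)).2.ne rfl,
        t3.2 rfl, t2 e, (mem_sdiff.1 e).2 (mem_cut.2 (by tauto))]
  · simp only [NoSq, not_forall, not_le] at hq
    obtain ⟨u, hu, v, hv, adj, u2, v2⟩ := hq
    obtain ⟨u', hu', v', hv', n1, n2, e1, e2, e3, e4⟩ :=
      h.square hσ hu hv adj u2 (by have := h.1 v hv; omega)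
    have sub : ({u, u', v, v'} : Finset V) ⊆ S := by
      simp [insert_subset_iff, hu, hu', hv, hv']
    have far : ∀ t ∈ S \ {u, u', v, v'}, ∀ w ∈ ({u, u', v, v'} : Finset V), ¬ G.Adj t w := by
      intro t ht w hw ad
      simp only [mem_sdiff, mem_insert, mem_singleton, not_or] at ht hw
      rcases hw with rfl | rfl | rfl | rfl
      · have := (nb_pair e1).1 ⟨ht.1, ad.symm⟩
        tauto
      · have := (nb_pair e2).1 ⟨ht.1, ad.symm⟩
        tauto
      · have := (nb_pair e3).1 ⟨ht.1, ad.symm⟩
        tauto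
      · have := (nb_pair e4).1 ⟨ht.1, ad.symm⟩
        tauto
    have a1 := ((nb_pair e1).2 (Or.inr rfl)).2
    have a2 := ((nb_pair e2).2 (Or.inl rfl)).2
    have a3 := ((nb_pair e2).2 (Or.inr rfl)).2
    have c4 : #({u, u', v, v'} : Finset V) = 4 := by
      rw [card_insert_of_notMem (by simp [n1, adj.ne, a1.ne]),
        card_insert_of_notMem (by simp [a2.ne, a3.ne]), card_pair n2]
    refine Built.square (S \ {u, u', v, v'}) S u u' v v' (ih _ ⟨sdiff_subset, fun hs =>
      (mem_sdiff.1 (hs hu)).2 (by simp)⟩ ⟨fun t ht => ?_, fun I ⟨i1, i2, i3⟩ => ?_⟩)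
      (sdiff_union_of_subset sub).symm (by simp) (by simp) (by simp) (by simp) n1 n2 e1 e2 e3 e4
    · rw [nb_congr sdiff_subset fun w hw adj => mem_sdiff.2 ⟨hw, fun e => far t ht w e adj⟩]
      exact h.1 t (mem_sdiff.1 ht).1
    · have uu : ¬ G.Adj u u' := fun e => no_tri hσ e a2 adj
      have := h.2 (I ∪ {u, u'}) ⟨union_subset (i1.trans sdiff_subset) (by
        simp [insert_subset_iff, hu, hu']), ?_, ?_⟩
      · have := card_union_le I {u, u'}
        have := card_le_two (a := u) (b := u')
        have := card_sdiff_add_card_eq_card sub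
        omega
      · have s2 : ({u, u'} : Finset V) ⊆ {u, u', v, v'} := by simp [insert_subset_iff]
        intro s hs t ht ad
        rcases mem_union.1 hs with hs | hs <;> rcases mem_union.1 ht with ht | ht
        · exact i2 s hs t ht ad
        · exact far s (i1 hs) t (s2 ht) ad
        · exact far t (i1 ht) s (s2 hs) ad.symm
        · simp only [mem_insert, mem_singleton] at hs ht
          rcases hs with rfl | rfl <;> rcases ht with rfl | rfl
          exacts [ad.ne rfl, uu ad, uu ad.symm, ad.ne rfl]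
      · intro t ht hn
        simp only [mem_union, mem_insert, mem_singleton, not_or] at hn
        by_cases e : t = v ∨ t = v'
        · exact ⟨u, by simp, by rcases e with rfl | rfl; exacts [adj.symm, a1.symm]⟩
        · obtain ⟨w, hw, adj⟩ := i3 t (by simp [ht]; tauto) hn.1
          exact ⟨w, mem_union_left _ hw, adj⟩

omit [DecidableRel G.Adj] in
theorem ID.inter {S T I : Finset V} (h : ID G T I)
    (hd : ∀ v ∈ S, v ∉ I → ∃ u ∈ I, u ∈ S ∧ G.Adj v u) : ID G S (I ∩ S) :=
  ⟨inter_subset_right, fun u hu v hv => h.2.1 u (mem_inter.1 hu).1 v (mem_inter.1 hv).1,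
    fun v hv hn => by
      obtain ⟨u, h1, h2, h3⟩ := hd v hv fun e => hn (mem_inter.2 ⟨e, hv⟩)
      exact ⟨u, mem_inter.2 ⟨h1, h2⟩, h3⟩⟩

theorem card_part {S I D : Finset V} (h : D ⊆ I) (hd : Disjoint D S) : #(I ∩ S) + #D ≤ #I := by
  rw [← card_union_of_disjoint (hd.symm.mono_left inter_subset_right)]
  exact card_le_card (union_subset inter_subset_left h)

omit [DecidableRel G.Adj] in
theorem ID.grow {S T I D : Finset V} (h : ID G S I) (hS : S ⊆ T) (hD : D ⊆ T)
    (h1 : ∀ u ∈ D, ∀ v ∈ I ∪ D, ¬ G.Adj u v)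
    (h2 : ∀ v ∈ T, v ∉ S → v ∉ D → ∃ u ∈ I ∪ D, G.Adj v u) : ID G T (I ∪ D) := by
  refine ⟨union_subset (h.1.trans hS) hD, fun u hu v hv adj => ?_, fun v hv hn => ?_⟩
  · rcases mem_union.1 hu with hu' | hu'
    · rcases mem_union.1 hv with hv' | hv'
      exacts [h.2.1 u hu' v hv' adj, h1 v hv' u hu adj.symm]
    · exact h1 u hu' v hv adj
  · rw [mem_union, not_or] at hn
    by_cases e : v ∈ S
    · obtain ⟨u, hu, adj⟩ := h.2.2 v e hn.1
      exact ⟨u, mem_union_left _ hu, adj⟩
    · exact h2 v hv e hn.2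

theorem Built.half {S : Finset V} (h : Built G S) :
    (∀ I, ID G S I → #S ≤ 2 * #I) ∧ ∃ I, ID G S I ∧ 2 * #I = #S := by
  induction h with
  | nil => exact ⟨fun _ _ => by simp, ∅, ⟨Subset.rfl, by simp, by simp⟩, rfl⟩
  | square S T x x' y y' _ hT m1 m2 m3 m4 n1 n2 e1 e2 e3 e4 ih =>
    obtain ⟨ih, I0, i0, c0⟩ := ih
    have a1 := (nb_pair e1).2 (Or.inl rfl)
    have a2 := (nb_pair e1).2 (Or.inr rfl)
    have a3 := (nb_pair e2).2 (Or.inl rfl)
    have a4 := (nb_pair e2).2 (Or.inr rfl)
    have a5 := (nb_pair e3).2 (Or.inl rfl)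
    have a6 := (nb_pair e3).2 (Or.inr rfl)
    have sub : S ⊆ T := hT ▸ subset_union_left
    have cT : #T = #S + 4 := by
      rw [hT, card_union_of_disjoint (by simp [m1, m2, m3, m4]),
        card_insert_of_notMem (by simp [n1, a1.2.ne, a2.2.ne]),
        card_insert_of_notMem (by simp [a3.2.ne, a4.2.ne]), card_pair n2]
    have far : ∀ t ∈ S, ∀ w ∈ T, G.Adj t w → w ∈ S := by
      intro t ht w hw adj
      rw [hT] at hw
      simp only [mem_union, mem_insert, mem_singleton] at hw
      rcases hw with hw | rfl | rfl | rfl | rfl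
      · exact hw
      · rcases (nb_pair e1).1 ⟨sub ht, adj.symm⟩ with rfl | rfl <;> contradiction
      · rcases (nb_pair e2).1 ⟨sub ht, adj.symm⟩ with rfl | rfl <;> contradiction
      · rcases (nb_pair e3).1 ⟨sub ht, adj.symm⟩ with rfl | rfl <;> contradiction
      · rcases (nb_pair e4).1 ⟨sub ht, adj.symm⟩ with rfl | rfl <;> contradiction
    refine ⟨fun I hI => ?_, I0 ∪ {x, x'}, i0.grow sub (by simp [insert_subset_iff, a5.1, a6.1])
      ?_ ?_, ?_⟩
    · have c1 := ih _ (hI.inter (S := S) fun v hv hn => by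
        obtain ⟨u, hu, adj⟩ := hI.2.2 v (sub hv) hn
        exact ⟨u, hu, far v hv u (hI.1 hu) adj, adj⟩)
      have dom : ∀ s ∈ T, ∀ p q, nb G T s = {p, q} → p ∉ I → q ∉ I → s ∈ I := by
        intro s hs p q e hp hq
        by_contra hn
        obtain ⟨u, hu, adj⟩ := hI.2.2 s hs hn
        rcases (nb_pair e).1 ⟨hI.1 hu, adj⟩ with rfl | rfl <;> contradiction
      by_cases e : y ∈ I ∨ y' ∈ I
      · have x1 : x ∉ I := fun h => e.elim (fun h' => hI.2.1 x h y h' a1.2)
          fun h' => hI.2.1 x h y' h' a2.2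
        have x2 : x' ∉ I := fun h => e.elim (fun h' => hI.2.1 x' h y h' a3.2)
          fun h' => hI.2.1 x' h y' h' a4.2
        have := card_part (S := S) (D := {y, y'}) (I := I) (by
          simp [insert_subset_iff, dom y a1.1 x x' e3 x1 x2, dom y' a2.1 x x' e4 x1 x2])
          (by simp [m3, m4])
        rw [card_pair n2] at this
        omega
      · rw [not_or] at e
        have := card_part (S := S) (D := {x, x'}) (I := I) (by
          simp [insert_subset_iff, dom x a5.1 y y' e1 e.1 e.2, dom x' a6.1 y y' e2 e.1 e.2])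
          (by simp [m1, m2])
        rw [card_pair n1] at this
        omega
    · intro u hu v hv adj
      have vT : v ∈ T := by
        rcases mem_union.1 hv with h | h
        · exact sub (i0.1 h)
        · simp only [mem_insert, mem_singleton] at h
          rcases h with rfl | rfl
          exacts [a5.1, a6.1]
      have : v = y ∨ v = y' := by
        simp only [mem_insert, mem_singleton] at hu
        rcases hu with rfl | rfl
        exacts [(nb_pair e1).1 ⟨vT, adj⟩, (nb_pair e2).1 ⟨vT, adj⟩]
      simp only [mem_union, mem_insert, mem_singleton] at hv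
      rcases this with rfl | rfl
      · rcases hv with h | h | h
        exacts [m3 (i0.1 h), a1.2.ne' h, a3.2.ne' h]
      · rcases hv with h | h | h
        exacts [m4 (i0.1 h), a2.2.ne' h, a4.2.ne' h]
    · intro v hv h1 h2
      rw [hT] at hv
      simp only [mem_union, mem_insert, mem_singleton, not_or] at hv h2
      refine ⟨x, by simp, ?_⟩
      rcases hv with h | h | h | rfl | rfl
      exacts [absurd h h1, absurd h h2.1, absurd h h2.2, a1.2.symm, a2.2.symm]
    · rw [card_union_of_disjoint (by
        simp only [disjoint_insert_right, disjoint_singleton_right]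
        exact ⟨fun h => m1 (i0.1 h), fun h => m2 (i0.1 h)⟩), card_pair n1]
      omega
  | stack S T A B x x' y a z _ hT hy ha ay ne yx yx' na zS zA zB dA dB dAB cA cB nz nA nB ih =>
    obtain ⟨ih, I0, i0, c0⟩ := ih
    have mT : ∀ t, t ∈ T ↔ t = z ∨ t ∈ S ∨ t ∈ A ∨ t ∈ B := fun t => by simp [hT]
    have sub : S ⊆ T := fun t ht => (mT t).2 (by tauto)
    have sA : A ⊆ T := fun t ht => (mT t).2 (by tauto)
    have sB : B ⊆ T := fun t ht => (mT t).2 (by tauto)
    have zT : z ∈ T := (mT z).2 (Or.inl rfl)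
    have cT : #T = #S + 2 * #A + 2 := by
      rw [hT, card_insert_of_notMem (by simp [zS, zA, zB]), card_union_of_disjoint
        (disjoint_union_left.2 ⟨dB.symm, dAB⟩), card_union_of_disjoint dA.symm]
      omega
    have ax := (nb_pair na).2 (Or.inl rfl)
    have ax' := (nb_pair na).2 (Or.inr rfl)
    have nz' : ∀ t ∈ T, G.Adj z t ↔ t = x ∨ t = x' ∨ t ∈ B := fun t ht => by
      have : t ∈ nb G T z ↔ t ∈ {x, x'} ∪ B := by rw [nz]
      simpa [ht, or_assoc] using this
    have ext : ∀ v ∈ S, ∀ u ∈ T, G.Adj v u → u ∈ S ∨ v = x ∨ v = x' ∨ (v = y ∧ u ∈ B) := by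
      intro v hv u hu adj
      rcases (mT u).1 hu with rfl | e | e | e
      · rcases (nz' v (sub hv)).1 adj.symm with e | e | e
        · tauto
        · tauto
        · exact absurd hv (disjoint_left.1 dB e)
      · exact Or.inl e
      · have := (nb_pair (nA u e)).1 ⟨sub hv, adj.symm⟩
        tauto
      · rcases (nb_pair (nB u e)).1 ⟨sub hv, adj.symm⟩ with e' | rfl
        · tauto
        · exact absurd hv zS
    refine ⟨fun I hI => ?_, ?_⟩
    · have dom : ∀ s ∈ T, ∀ p q, nb G T s = {p, q} → p ∉ I → q ∉ I → s ∈ I := by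
        intro s hs p q e hp hq
        by_contra hn
        obtain ⟨u, hu, adj⟩ := hI.2.2 s hs hn
        rcases (nb_pair e).1 ⟨hI.1 hu, adj⟩ with rfl | rfl <;> contradiction
      by_cases e : ∃ c ∈ I, c = x ∨ c = x'
      · obtain ⟨c, cI, hc⟩ := e
        have cS : c ∈ S := by rcases hc with rfl | rfl; exacts [ax.1, ax'.1]
        have yc : G.Adj y c := by rcases hc with rfl | rfl; exacts [yx, yx']
        have zc : G.Adj z c := (nz' c (sub cS)).2 (by tauto)
        have yI : y ∉ I := fun h => hI.2.1 y h c cI yc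
        have zI : z ∉ I := fun h => hI.2.1 z h c cI zc
        have c1 := ih _ (hI.inter (S := S) fun v hv hn => by
          obtain ⟨u, hu, adj⟩ := hI.2.2 v (sub hv) hn
          rcases (mT u).1 (hI.1 hu) with rfl | e | e | e
          · exact absurd hu zI
          · exact ⟨u, hu, e, adj⟩
          · exact absurd ((nb_pair (nA u e)).2 hc).2 (hI.2.1 u hu c cI)
          · rcases (nb_pair (nB u e)).1 ⟨sub hv, adj.symm⟩ with rfl | rfl
            exacts [⟨c, cI, cS, yc⟩, absurd hv zS])
        have := card_part (fun b hb => dom b (sB hb) y z (nB b hb) yI zI) dB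
        omega
      · push Not at e
        have x1 : x ∉ I := fun h => (e x h).1 rfl
        have x2 : x' ∉ I := fun h => (e x' h).2 rfl
        have AI : A ⊆ I := fun b hb => dom b (sA hb) x x' (nA b hb) x1 x2
        have aI : a ∈ I := by
          by_contra hn
          obtain ⟨u, hu, adj⟩ := hI.2.2 a (sub ha) hn
          rcases ext a ha u (hI.1 hu) adj with e' | e' | e' | e'
          · rcases (nb_pair na).1 ⟨e', adj⟩ with rfl | rfl <;> contradiction
          exacts [ax.2.ne e', ax'.2.ne e', ay e'.1]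
        have rest : ∀ v ∈ S, v ∉ I → (∃ u ∈ I, u ∈ S ∧ G.Adj v u) ∨ (v = y ∧ ∃ b ∈ B, b ∈ I) := by
          intro v hv hn
          obtain ⟨u, hu, adj⟩ := hI.2.2 v (sub hv) hn
          rcases ext v hv u (hI.1 hu) adj with e' | rfl | rfl | e'
          exacts [Or.inl ⟨u, hu, e', adj⟩, Or.inl ⟨a, aI, ha, ax.2.symm⟩,
            Or.inl ⟨a, aI, ha, ax'.2.symm⟩, Or.inr ⟨e'.1, u, e'.2, hu⟩]
        by_cases zI : z ∈ I
        · have c1 := ih _ (hI.inter (S := S) fun v hv hn => (rest v hv hn).resolve_right
            fun ⟨_, b, hb, bI⟩ => hI.2.1 z zI b bI ((nz' b (sB hb)).2 (by tauto)))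
          have := card_part (insert_subset zI AI) (disjoint_insert_left.2 ⟨zS, dA⟩)
          rw [card_insert_of_notMem zA] at this
          omega
        · obtain ⟨b, bI, adj⟩ := hI.2.2 z zT zI
          have hb : b ∈ B := by
            rcases (nz' b (hI.1 bI)).1 adj with rfl | rfl | e' <;> first | contradiction | exact e'
          have yI : y ∉ I := fun h => hI.2.1 b bI y h ((nb_pair (nB b hb)).2 (Or.inl rfl)).2
          have c1 := card_part (union_subset AI fun b hb => dom b (sB hb) y z (nB b hb) yI zI)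
            (disjoint_union_left.2 ⟨dA, dB⟩)
          rw [card_union_of_disjoint dAB] at c1
          by_cases yd : ∃ u ∈ I, u ∈ S ∧ G.Adj y u
          · have := ih _ (hI.inter (S := S) fun v hv hn =>
              (rest v hv hn).elim id fun e' => e'.1 ▸ yd)
            omega
          · push Not at yd
            have := ih (insert y (I ∩ S)) ⟨insert_subset hy inter_subset_right, ?_, ?_⟩
            · have := card_insert_le y (I ∩ S)
              omega
            · intro u hu v hv adj
              rcases mem_insert.1 hu with rfl | hu' <;> rcases mem_insert.1 hv with rfl | hv'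
              exacts [adj.ne rfl, yd v (mem_inter.1 hv').1 (mem_inter.1 hv').2 adj,
                yd u (mem_inter.1 hu').1 (mem_inter.1 hu').2 adj.symm,
                hI.2.1 u (mem_inter.1 hu').1 v (mem_inter.1 hv').1 adj]
            · intro v hv hn
              simp only [mem_insert, mem_inter, hv, and_true, not_or] at hn
              obtain ⟨u, h1, h2, h3⟩ := (rest v hv hn.2).resolve_right fun e' => hn.1 e'.1
              exact ⟨u, mem_insert_of_mem (mem_inter.2 ⟨h1, h2⟩), h3⟩
    · by_cases e : ∃ c ∈ I0, c = x ∨ c = x'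
      · obtain ⟨c, cI, hc⟩ := e
        have yc : G.Adj y c := by rcases hc with rfl | rfl; exacts [yx, yx']
        refine ⟨I0 ∪ B, i0.grow sub sB ?_ ?_, ?_⟩
        · intro u hu v hv adj
          rcases (nb_pair (nB u hu)).1 ⟨union_subset (i0.1.trans sub) sB hv, adj⟩ with rfl | rfl
          · rcases mem_union.1 hv with h | h
            exacts [i0.2.1 v h c cI yc, disjoint_left.1 dB h hy]
          · rcases mem_union.1 hv with h | h
            exacts [zS (i0.1 h), zB h]
        · intro v hv h1 h2
          refine ⟨c, mem_union_left _ cI, ?_⟩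
          rcases (mT v).1 hv with rfl | h | h | h
          exacts [(nz' c (sub (i0.1 cI))).2 (by tauto), absurd h h1, ((nb_pair (nA v h)).2 hc).2,
            absurd h h2]
        · rw [card_union_of_disjoint (dB.symm.mono_left i0.1)]
          omega
      · push Not at e
        have nx : ∀ v ∈ I0 ∪ insert z A, v ≠ x ∧ v ≠ x' ∧ v ∉ B := by
          intro v hv
          simp only [mem_union, mem_insert] at hv
          rcases hv with h | rfl | h
          · exact ⟨(e v h).1, (e v h).2, fun h' => disjoint_left.1 dB h' (i0.1 h)⟩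
          · exact ⟨fun h => zS (h ▸ ax.1), fun h => zS (h ▸ ax'.1), zB⟩
          · exact ⟨fun h' => disjoint_left.1 dA h (h' ▸ ax.1),
              fun h' => disjoint_left.1 dA h (h' ▸ ax'.1), disjoint_left.1 dAB h⟩
        refine ⟨I0 ∪ insert z A, i0.grow sub (insert_subset zT sA) ?_ ?_, ?_⟩
        · intro u hu v hv adj
          have vT := union_subset (i0.1.trans sub) (insert_subset zT sA) hv
          have := nx v hv
          rcases mem_insert.1 hu with rfl | hu
          · have := (nz' v vT).1 adj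
            tauto
          · have := (nb_pair (nA u hu)).1 ⟨vT, adj⟩
            tauto
        · intro v hv h1 h2
          simp only [mem_insert, not_or] at h2
          refine ⟨z, by simp, ((nz' v hv).2 ?_).symm⟩
          have := (mT v).1 hv
          tauto
        · rw [card_union_of_disjoint ((disjoint_insert_right.2 ⟨zS, dA.symm⟩).mono_left i0.1),
            card_insert_of_notMem zA]
          omega

variable [Fintype V]

omit [DecidableEq V] [DecidableRel G.Adj] in
theorem id_univ {I : Finset V} : ID G univ I ↔ IndDom G I := by simp [ID, IndDom]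

omit [DecidableRel G.Adj] in
theorem TwoLeFidom.bip (hd : TwoLeFidom G) (h : ∀ I, ID G univ I → #(univ : Finset V) ≤ 2 * #I) :
    ∃ σ : V → Bool, ∀ u v, G.Adj u v → σ u ≠ σ v := by
  obtain ⟨k, M, hk, m2, le⟩ := hd
  let L : V → Finset (Fin k) := fun v => univ.filter (v ∈ M ·)
  have s1 : ∑ v, 2 * #(L v) = ∑ i, 2 * #(M i) := by
    simp only [L, card_filter, ← mul_sum]
    rw [sum_comm]
    simp
  have eq : ∀ v ∈ (univ : Finset V), 2 * #(L v) = k :=
    (sum_eq_sum_iff_of_le fun v _ => le v).1 (le_antisymm (sum_le_sum fun v _ => le v) (by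
      have := sum_le_sum (s := univ) fun i _ => h _ (id_univ.2 (m2 i))
      rw [s1]
      simpa [mul_comm] using this))
  refine ⟨fun v => decide (⟨0, hk⟩ ∈ L v), fun u v a => ?_⟩
  have dj : Disjoint (L u) (L v) := disjoint_left.2 fun i h1 h2 =>
    (m2 i).1 u (mem_filter.1 h1).2 v (mem_filter.1 h2).2 a
  have un : L u ∪ L v = univ := eq_univ_of_card _ (by
    have := eq u (mem_univ _)
    have := eq v (mem_univ _)
    rw [card_union_of_disjoint dj, Fintype.card_fin]
    omega)
  have h1 := mem_union.1 (un ▸ mem_univ (⟨0, hk⟩ : Fin k))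
  have h2 := @disjoint_left.1 dj ⟨0, hk⟩
  simp only [ne_eq, decide_eq_decide]
  tauto

theorem built_of (hG : IsPlanar G) (hd : ∀ v, 2 ≤ G.degree v) (hc : G.Colorable 2 ∨ TwoLeFidom G)
    (e : 2 * iDom G = Fintype.card V) : Built G univ := by
  have h2 : ∀ I, ID G univ I → #(univ : Finset V) ≤ 2 * #I := fun I hI => by
    have : iDom G ≤ #I := Nat.sInf_le ⟨I, id_univ.1 hI, rfl⟩
    rw [card_univ]
    omega
  obtain ⟨σ, hσ⟩ : ∃ σ : V → Bool, ∀ u v, G.Adj u v → σ u ≠ σ v := by
    rcases hc with ⟨⟨C⟩⟩ | hc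
    · refine ⟨fun v => decide (C v = 0), fun u v a => ?_⟩
      have := C.valid a
      simp only [ne_eq, decide_eq_decide]
      omega
    · exact hc.bip h2
  refine Ext.built hσ hG univ ⟨fun v _ => ?_, h2⟩
  have := hd v
  rwa [← G.card_neighborFinset_eq_degree, G.neighborFinset_eq_filter] at this

theorem of_built (hb : Built G univ) : 2 * iDom G = Fintype.card V := by
  obtain ⟨h1, I, h2, h3⟩ := hb.half
  obtain ⟨J, j1, j2⟩ : iDom G ∈ {k | ∃ I, IndDom G I ∧ I.card = k} :=
    Nat.sInf_mem ⟨_, I, id_univ.1 h2, rfl⟩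
  have : iDom G ≤ #I := Nat.sInf_le ⟨I, id_univ.1 h2, rfl⟩
  have := h1 J (id_univ.2 j1)
  rw [card_univ] at this h3
  omega

end Pool.Agent.MP_31805c_co.H93
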